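import Pool.Agent.Q169.Cusp.Final

/-!
One-sided cones and one-sided tangents.
-/

set_option autoImplicit false

namespace Q169.Cusp

open Set Filter Topology MeasureTheory

open H145R2.TSq (Jor)

/-- Near the parameter `τ`, the chords on the right make an angle with `v` and those on the left an
angle with `v'` whose tangent is at most `κ`. -/
def OneCones (κ : ℝ) (γ : ℝ → ℂ) (τ : ℝ) : Prop := ∃ v v' : ℂ, v ≠ 0 ∧ v' ≠ 0 ∧ ∃ δ > 0,
  (∀ s t, τ ≤ s → s ≤ t → t ≤ τ + δ →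
    |((starRingEnd ℂ) v * (γ t - γ s)).im| ≤ κ * ((starRingEnd ℂ) v * (γ t - γ s)).re) ∧
  (∀ s t, τ - δ ≤ s → s ≤ t → t ≤ τ →
    |((starRingEnd ℂ) v' * (γ t - γ s)).im| ≤ κ * ((starRingEnd ℂ) v' * (γ t - γ s)).re)

lemma cone_normalize {κ : ℝ} {v : ℂ} (hv : v ≠ 0) {k : ℂ}
    (h : |((starRingEnd ℂ) v * k).im| ≤ κ * ((starRingEnd ℂ) v * k).re) :
    |((starRingEnd ℂ) (v / (‖v‖ : ℂ)) * k).im| ≤ κ * ((starRingEnd ℂ) (v / (‖v‖ : ℂ)) * k).re := by
  have hn : 0 < ‖v‖ := norm_pos_iff.2 hv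
  have e : (starRingEnd ℂ) (v / (‖v‖ : ℂ)) * k = ((‖v‖⁻¹ : ℝ) : ℂ) * ((starRingEnd ℂ) v * k) := by
    rw [map_div₀, Complex.conj_ofReal]
    push_cast
    field_simp
  rw [e, Complex.im_ofReal_mul, Complex.re_ofReal_mul, abs_mul, abs_of_pos (inv_pos.2 hn)]
  have := mul_le_mul_of_nonneg_left h (inv_pos.2 hn).le
  linarith

lemma norm_unit {v : ℂ} (hv : v ≠ 0) : ‖v / (‖v‖ : ℂ)‖ = 1 := by
  rw [norm_div, Complex.norm_real, norm_norm, div_self (norm_ne_zero_iff.2 hv)]

/-- The arithmetic of the two cones. -/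
lemma cone_mul {κ c s M : ℝ} (hs : |s| ≤ M) {k : ℂ} (hk : |k.im| ≤ κ * k.re) (hk0 : 0 ≤ k.re) 
    (hM : 0 ≤ M) :
    |((⟨c, s⟩ : ℂ) * k).im| ≤ (|c| * κ + M) * k.re ∧
    (c - M * κ) * k.re ≤ ((⟨c, s⟩ : ℂ) * k).re := by
  simp only [Complex.mul_im, Complex.mul_re]
  have h1 : |c * k.im| ≤ |c| * (κ * k.re) := by
    rw [abs_mul]; exact mul_le_mul_of_nonneg_left hk (abs_nonneg _)
  have h2 : |s * k.re| ≤ M * k.re := by
    rw [abs_mul, abs_of_nonneg hk0]; exact mul_le_mul_of_nonneg_right hs hk0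
  have h3 : |s * k.im| ≤ M * (κ * k.re) := by
    rw [abs_mul]; exact mul_le_mul hs hk (abs_nonneg _) hM
  have h3' := abs_le.1 h3
  constructor
  · refine (abs_add_le _ _).trans ?_
    linarith
  · linarith [h3'.1, h3'.2]

theorem oneCones_cases {κ L : ℝ} (hκ0 : 0 < κ) (hκ1 : κ < 1) (hL0 : 0 < L) (hL3 : 3 * L ^ 2 ≤ 1)
    (hκL : 2 * κ ≤ L * (1 - κ ^ 2)) {γ : ℝ → ℂ} {τ : ℝ} (H : OneCones κ γ τ) :
    LG γ τ ∨ IsCusp γ τ := by
  obtain ⟨v0, v0', hv0, hv0', δ, hδ, H1, H2⟩ := H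
  obtain ⟨v, hv⟩ : ∃ v : ℂ, v = v0 / (‖v0‖ : ℂ) := ⟨_, rfl⟩
  obtain ⟨v', hv'⟩ : ∃ v' : ℂ, v' = v0' / (‖v0'‖ : ℂ) := ⟨_, rfl⟩
  have nv : ‖v‖ = 1 := by rw [hv]; exact norm_unit hv0
  have nv' : ‖v'‖ = 1 := by rw [hv']; exact norm_unit hv0'
  have K1 : ∀ s t, τ ≤ s → s ≤ t → t ≤ τ + δ →
      |((starRingEnd ℂ) v * (γ t - γ s)).im| ≤ κ * ((starRingEnd ℂ) v * (γ t - γ s)).re :=
    fun s t a b c => by rw [hv]; exact cone_normalize hv0 (H1 s t a b c)
  have K2 : ∀ s t, τ - δ ≤ s → s ≤ t → t ≤ τ →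
      |((starRingEnd ℂ) v' * (γ t - γ s)).im| ≤ κ * ((starRingEnd ℂ) v' * (γ t - γ s)).re :=
    fun s t a b c => by rw [hv']; exact cone_normalize hv0' (H2 s t a b c)
  have uv : v * (starRingEnd ℂ) v = 1 := by
    rw [Complex.mul_conj, Complex.normSq_eq_norm_sq, nv]; norm_num
  have uv' : v' * (starRingEnd ℂ) v' = 1 := by
    rw [Complex.mul_conj, Complex.normSq_eq_norm_sq, nv']; norm_num
  -- `c1 + i s1 = - conj v' * v`
  obtain ⟨D, hD⟩ : ∃ D : ℂ, D = -((starRingEnd ℂ) v' * v) := ⟨_, rfl⟩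
  have hDn : D.re ^ 2 + D.im ^ 2 = 1 := by
    have : Complex.normSq D = 1 := by
      rw [Complex.normSq_eq_norm_sq, hD, norm_neg, norm_mul, Complex.norm_conj, nv, nv']
      norm_num
    rw [Complex.normSq_apply] at this
    nlinarith
  have hDc : (starRingEnd ℂ) D = -((starRingEnd ℂ) v * v') := by
    rw [hD, map_neg, map_mul, Complex.conj_conj, mul_comm]
  have hc1 : D.re ≤ 1 := by nlinarith [sq_nonneg D.im, sq_nonneg (D.re - 1)]
  have hc2 : -1 ≤ D.re := by nlinarith [sq_nonneg D.im, sq_nonneg (D.re + 1)]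
  by_cases hA : v + v' ≠ 0 ∧ κ * |D.im| ≤ 1 - D.re
  · left
    refine LG_of_two (w := v + v') hA.1 hδ ?_ ?_
    · intro s t a b c
      have k2 := K2 s t a.le b c
      obtain ⟨k, hk⟩ : ∃ k, k = (starRingEnd ℂ) v' * (γ t - γ s) := ⟨_, rfl⟩
      rw [← hk] at k2
      have k0 : 0 ≤ k.re := nonneg_of_mul_nonneg_right ((abs_nonneg _).trans k2) hκ0
      have e : (starRingEnd ℂ) (v + v') * (γ t - γ s) = (⟨1 - D.re, D.im⟩ : ℂ) * k := by
        have e1 : (⟨1 - D.re, D.im⟩ : ℂ) = 1 - (starRingEnd ℂ) D := by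
          apply Complex.ext <;> simp
        rw [e1, hDc, hk, map_add]
        linear_combination (-(starRingEnd ℂ) v * (γ t - γ s)) * uv'
      rw [e]
      have := (cone_mul (c := 1 - D.re) (s := D.im) (M := |D.im|) le_rfl k2 k0 (abs_nonneg _)).2
      refine le_trans (mul_nonneg ?_ k0) this
      linarith [hA.2]
    · intro s t a b c
      have k1 := K1 s t a b c.le
      obtain ⟨k, hk⟩ : ∃ k, k = (starRingEnd ℂ) v * (γ t - γ s) := ⟨_, rfl⟩
      rw [← hk] at k1
      have k0 : 0 ≤ k.re := nonneg_of_mul_nonneg_right ((abs_nonneg _).trans k1) hκ0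
      have e : (starRingEnd ℂ) (v + v') * (γ t - γ s) = (⟨1 - D.re, -D.im⟩ : ℂ) * k := by
        have e1 : (⟨1 - D.re, -D.im⟩ : ℂ) = 1 - D := by
          apply Complex.ext <;> simp
        rw [e1, hD, hk, map_add]
        linear_combination (-(starRingEnd ℂ) v' * (γ t - γ s)) * uv
      rw [e]
      have := (cone_mul (c := 1 - D.re) (s := -D.im) (M := |D.im|) (by rw [abs_neg]) k1 k0
        (abs_nonneg _)).2
      refine le_trans (mul_nonneg ?_ k0) this
      linarith [hA.2]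
  · right
    -- the two cones overlap
    have hB : |D.im| ≤ κ * (1 + D.re) ∧ 0 < 1 + D.re := by
      by_cases h0 : v + v' = 0
      · have e : v' = -v := by linear_combination h0
        have eD : D = 1 := by
          rw [hD, e, map_neg, neg_mul, neg_neg, mul_comm]
          exact uv
        rw [eD]
        simp only [Complex.one_im, Complex.one_re, abs_zero]
        constructor
        · linarith
        · norm_num
      · rw [not_and] at hA
        have h1 := not_le.1 (hA h0)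
        have h2 : 0 < |D.im| := by
          by_contra h
          have : |D.im| = 0 := le_antisymm (not_lt.1 h) (abs_nonneg _)
          rw [this] at h1
          linarith
        have h3 : |D.im| * |D.im| = (1 - D.re) * (1 + D.re) := by
          rw [← sq, sq_abs]; linarith
        have h5 : 0 < 1 + D.re := by
          by_contra h
          have h6 : 1 + D.re = 0 := by linarith
          rw [h6, mul_zero] at h3
          nlinarith
        refine ⟨?_, h5⟩
        have h4 : |D.im| * |D.im| ≤ κ * (1 + D.re) * |D.im| := by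
          rw [h3]
          nlinarith
        exact le_of_mul_le_mul_right h4 h2
    obtain ⟨hB1, hB2⟩ := hB
    have hEne : v - v' ≠ 0 := by
      intro h
      have e : v' = v := by linear_combination -h
      have eD : D = -1 := by
        rw [hD, e, mul_comm, uv]
      rw [eD] at hB2
      simp at hB2
    have hmain : ∀ k : ℂ, |k.im| ≤ κ * k.re → ∀ σ : ℝ, |σ| ≤ κ * (1 + D.re) →
        |((⟨1 + D.re, σ⟩ : ℂ) * k).im| ≤ L * ((⟨1 + D.re, σ⟩ : ℂ) * k).re := by
      intro k hk σ hσ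
      have k0 : 0 ≤ k.re := nonneg_of_mul_nonneg_right ((abs_nonneg _).trans hk) hκ0
      obtain ⟨m1, m2⟩ := cone_mul (c := 1 + D.re) hσ hk k0 (mul_nonneg hκ0.le hB2.le)
      rw [abs_of_pos hB2] at m1
      have m3 := mul_le_mul_of_nonneg_left m2 hL0.le
      have m4 : 0 ≤ (1 + D.re) * k.re := mul_nonneg hB2.le k0
      have m5 := mul_le_mul_of_nonneg_right hκL m4
      nlinarith
    refine ⟨L, (v - v') / (‖v - v'‖ : ℂ), min δ (1 / 4), hL0, hL3, norm_unit hEne,
      lt_min hδ (by norm_num), min_le_right _ _, ?_, ?_⟩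
    · intro s t a b c
      have md := min_le_left δ (1/4)
      refine cone_normalize hEne ?_
      have k1 := K1 s t a b (by linarith)
      have e : (starRingEnd ℂ) (v - v') * (γ t - γ s) =
          (⟨1 + D.re, D.im⟩ : ℂ) * ((starRingEnd ℂ) v * (γ t - γ s)) := by
        have e1 : (⟨1 + D.re, D.im⟩ : ℂ) = 1 + D := by
          apply Complex.ext <;> simp
        rw [e1, hD, map_sub]
        linear_combination ((starRingEnd ℂ) v' * (γ t - γ s)) * uv
      rw [e]
      exact hmain _ k1 _ hB1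
    · intro s t a b c
      have md := min_le_left δ (1/4)
      refine cone_normalize hEne ?_
      have k2 := K2 s t (by linarith) b c
      have e : (starRingEnd ℂ) (v - v') * (γ s - γ t) =
          (⟨1 + D.re, -D.im⟩ : ℂ) * ((starRingEnd ℂ) v' * (γ t - γ s)) := by
        have e1 : (⟨1 + D.re, -D.im⟩ : ℂ) = 1 + (starRingEnd ℂ) D := by
          apply Complex.ext <;> simp
        rw [e1, hDc, map_sub]
        linear_combination ((starRingEnd ℂ) v * (γ t - γ s)) * uv'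
      rw [e]
      exact hmain _ k2 _ (by rwa [abs_neg])

/-- One-sided limits of the derivative give cones. -/
lemma cone_of_deriv {γ : ℝ → ℂ} (hγ : Continuous γ) {S : Set ℝ} (hS : S.Countable)
    (hd : ∀ t, t ∉ S → DifferentiableAt ℝ γ t) {κ : ℝ} (hκ0 : 0 < κ) {a b : ℝ} {v : ℂ}
    (hv : v ≠ 0) (hab : ∀ t ∈ Ioo a b, t ∉ S → ‖deriv γ t - v‖ ≤ κ / (1 + κ) * ‖v‖) {s t : ℝ}
    (hs : a ≤ s) (hst : s ≤ t) (ht : t ≤ b) :
    |((starRingEnd ℂ) v * (γ t - γ s)).im| ≤ κ * ((starRingEnd ℂ) v * (γ t - γ s)).re := by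
  have hmeas : AEStronglyMeasurable (fun x => deriv γ x - v) (volume.restrict (uIoc s t)) :=
    ((stronglyMeasurable_deriv γ).sub stronglyMeasurable_const).aestronglyMeasurable
  have hbd : ∀ᵐ x, x ∈ uIoc s t → ‖deriv γ x - v‖ ≤ κ / (1 + κ) * ‖v‖ := by
    have h1 : ∀ᵐ x : ℝ, x ∉ S := hS.ae_notMem volume
    have h2 : ∀ᵐ x : ℝ, x ∉ ({t} : Set ℝ) := (countable_singleton t).ae_notMem volume
    filter_upwards [h1, h2] with x hx1 hx2 hx
    rw [uIoc_of_le hst] at hx
    refine hab x ⟨by linarith [hx.1], ?_⟩ hx1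
    have : x < t := lt_of_le_of_ne hx.2 hx2
    linarith
  have hint : IntervalIntegrable (fun x => deriv γ x - v) volume s t := by
    refine (intervalIntegrable_const (c := κ / (1 + κ) * ‖v‖)).mono_fun hmeas ?_
    rw [Filter.EventuallyLE, ae_restrict_iff' measurableSet_uIoc]
    filter_upwards [hbd] with x hx hx'
    rw [Real.norm_eq_abs]
    exact (hx hx').trans (le_abs_self _)
  have hftc : ∫ x in s..t, (deriv γ x - v) = (γ t - t * v) - (γ s - s * v) := by
    refine integral_eq_of_hasDerivAt_off_countable_of_le (fun x : ℝ => γ x - (x : ℂ) * v) _ hst hS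
      (by fun_prop) ?_ hint
    intro x hx
    have h1 := (hd x hx.2).hasDerivAt
    have h2 : HasDerivAt (fun x : ℝ => (x : ℂ) * v) v x := by
      have := (Complex.ofRealCLM.hasDerivAt (x := x)).mul_const v
      simpa using this
    exact h1.sub h2
  have hnorm : ‖(γ t - γ s) - ((t - s : ℝ) : ℂ) * v‖ ≤ κ / (1 + κ) * ‖v‖ * (t - s) := by
    have := intervalIntegral.norm_integral_le_of_norm_le_const_ae hbd
    rw [hftc, abs_of_nonneg (by linarith)] at this
    have e : (γ t - t * v) - (γ s - s * v) = (γ t - γ s) - ((t - s : ℝ) : ℂ) * v := by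
      push_cast; ring
    rwa [e] at this
  obtain ⟨E, hE⟩ : ∃ E, E = (γ t - γ s) - ((t - s : ℝ) : ℂ) * v := ⟨_, rfl⟩
  rw [← hE] at hnorm
  have e : (starRingEnd ℂ) v * (γ t - γ s) =
      (((t - s) * ‖v‖ ^ 2 : ℝ) : ℂ) + (starRingEnd ℂ) v * E := by
    have h1 : (starRingEnd ℂ) v * v = ((‖v‖ ^ 2 : ℝ) : ℂ) := by
      rw [mul_comm, Complex.mul_conj, Complex.normSq_eq_norm_sq]
    rw [hE]
    push_cast at h1 ⊢
    linear_combination ((t - s : ℂ)) * h1
  have hE2 : ‖(starRingEnd ℂ) v * E‖ ≤ κ / (1 + κ) * ((t - s) * ‖v‖ ^ 2) := by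
    rw [norm_mul, Complex.norm_conj]
    have := mul_le_mul_of_nonneg_left hnorm (norm_nonneg v)
    linarith
  have i1 := Complex.abs_im_le_norm ((starRingEnd ℂ) v * E)
  have i2 := (abs_le.1 ((Complex.abs_re_le_norm ((starRingEnd ℂ) v * E)).trans hE2)).1
  rw [e, Complex.add_im, Complex.add_re, Complex.ofReal_im, Complex.ofReal_re, zero_add]
  have e3 : κ * ((t - s) * ‖v‖ ^ 2) - κ * (κ / (1 + κ) * ((t - s) * ‖v‖ ^ 2)) =
      κ / (1 + κ) * ((t - s) * ‖v‖ ^ 2) := by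
    field_simp
    ring
  have i3 := mul_le_mul_of_nonneg_left i2 hκ0.le
  linarith

end Q169.Cusp
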