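import Mathlib
import Pool.Agent.H145R2.TFinal

/-!
Replacing an arc of a Jordan curve by a segment, and the local condition (graph over a foliation) of the
new curve.
-/

set_option autoImplicit false

namespace Q169.Cusp

open Set Filter Topology

open H145R2.TSq (Jor)

/-- The curve is locally a graph over a foliation of class `C^{1,1}` at the parameter `τ`. -/
def LG (γ : ℝ → ℂ) (τ : ℝ) : Prop := ∃ φ : ℂ → ℝ, ∃ U ∈ 𝓝 (γ τ), ∃ K : NNReal,
  (∀ z ∈ U, DifferentiableAt ℝ φ z) ∧ LipschitzOnWith K (fderiv ℝ φ) U ∧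
  fderiv ℝ φ (γ τ) ≠ 0 ∧ ∃ ε > 0, MonotoneOn (fun t => φ (γ t)) (Ioo (τ - ε) (τ + ε))

/-- The curve contains the vertices of a square. -/
def HasSq (γ : ℝ → ℂ) : Prop := ∃ z w : ℂ, w ≠ 0 ∧ z ∈ Set.range γ ∧ z + w ∈ Set.range γ ∧
  z + w + Complex.I * w ∈ Set.range γ ∧ z + Complex.I * w ∈ Set.range γ

lemma hasSq_of_LG {γ : ℝ → ℂ} (J : Jor γ) (h : ∀ τ, LG γ τ) : HasSq γ :=
  H145R2.TSq.main J h

/-- Monotone in a direction. -/
lemma LG_of_mono {γ : ℝ → ℂ} {τ ε : ℝ} {w : ℂ} (hw : w ≠ 0) (hε : 0 < ε)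
    (h : ∀ s t, τ - ε < s → s ≤ t → t < τ + ε →
      0 ≤ ((starRingEnd ℂ) w * (γ t - γ s)).re) : LG γ τ := by
  let F : ℂ →L[ℝ] ℝ := Complex.reCLM.comp ((ContinuousLinearMap.mul ℝ ℂ) ((starRingEnd ℂ) w))
  have hF : ∀ z, F z = ((starRingEnd ℂ) w * z).re := fun z => rfl
  refine ⟨F, univ, univ_mem, 0, fun z _ => F.differentiableAt, ?_, ?_, ε, hε, ?_⟩
  · have : fderiv ℝ F = fun _ => F := by
      funext z
      exact F.fderiv
    rw [this]
    exact (LipschitzWith.const F).lipschitzOnWith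
  · rw [F.fderiv]
    intro h0
    have := hF w
    rw [h0] at this
    have h2 : ((starRingEnd ℂ) w * w) = ((Complex.normSq w : ℝ) : ℂ) := by
      rw [mul_comm, Complex.mul_conj]
    rw [h2, Complex.ofReal_re] at this
    have := Complex.normSq_pos.2 hw
    simp_all
  · intro s hs t ht hst
    have := h s t hs.1 hst ht.2
    rw [mul_sub, Complex.sub_re] at this
    show F (γ s) ≤ F (γ t)
    rw [hF, hF]
    linarith

lemma LG_congr {γ h : ℝ → ℂ} {τ : ℝ} (e : ∀ᶠ t in 𝓝 τ, h t = γ t) (H : LG γ τ) : LG h τ := by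
  obtain ⟨φ, U, hU, K, h1, h2, h3, ε, hε, h4⟩ := H
  have e0 : h τ = γ τ := e.self_of_nhds
  obtain ⟨δ, hδ, hδ'⟩ := Metric.eventually_nhds_iff.1 e
  refine ⟨φ, U, by rwa [e0], K, h1, h2, by rwa [e0], min ε δ, lt_min hε hδ, ?_⟩
  intro s hs t ht hst
  have hs' : h s = γ s := hδ' (by
    rw [Real.dist_eq, abs_lt]
    constructor <;> linarith [hs.1, hs.2, min_le_right ε δ])
  have ht' : h t = γ t := hδ' (by
    rw [Real.dist_eq, abs_lt]
    constructor <;> linarith [ht.1, ht.2, min_le_right ε δ])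
  show φ (h s) ≤ φ (h t)
  rw [hs', ht']
  exact h4 ⟨by linarith [hs.1, min_le_left ε δ], by linarith [hs.2, min_le_left ε δ]⟩
    ⟨by linarith [ht.1, min_le_left ε δ], by linarith [ht.2, min_le_left ε δ]⟩ hst

/-- Being locally a graph is invariant under integer translations of the parameter. -/
lemma LG_add_int {γ : ℝ → ℂ} (J : Jor γ) {τ : ℝ} (n : ℤ) (H : LG γ τ) : LG γ (τ + n) := by
  have hper : ∀ t, γ (t - n) = γ t := by
    intro t
    have hp : Function.Periodic γ 1 := J.per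
    have := hp.sub_zsmul_eq (x := t) n
    rwa [zsmul_eq_mul, mul_one] at this
  obtain ⟨φ, U, hU, K, h1, h2, h3, ε, hε, h4⟩ := H
  have e0 : γ (τ + n) = γ τ := by
    have := hper (τ + n)
    rw [add_sub_cancel_right] at this
    exact this.symm
  refine ⟨φ, U, by rwa [e0], K, h1, h2, by rwa [e0], ε, hε, ?_⟩
  intro s hs t ht hst
  have := h4 (a := s - n) (b := t - n) ⟨by linarith [hs.1], by linarith [hs.2]⟩
    ⟨by linarith [ht.1], by linarith [ht.2]⟩ (by linarith)
  simpa only [hper] using this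

/-- Being locally a graph is an open condition. -/
lemma LG_open {γ : ℝ → ℂ} (hc : Continuous γ) {τ : ℝ} (H : LG γ τ) : ∀ᶠ t in 𝓝 τ, LG γ t := by
  obtain ⟨φ, U, hU, K, h1, h2, h3, ε, hε, h4⟩ := H
  have hmem : ∀ᶠ t in 𝓝 τ, γ t ∈ interior U :=
    hc.continuousAt.eventually_mem (interior_mem_nhds.2 hU)
  have hcont : ContinuousOn (fderiv ℝ φ) U := h2.continuousOn
  have hcat : ContinuousAt (fderiv ℝ φ) (γ τ) := hcont.continuousAt hU
  have hne : ∀ᶠ t in 𝓝 τ, fderiv ℝ φ (γ t) ≠ 0 :=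
    (ContinuousAt.comp (f := γ) (x := τ) hcat hc.continuousAt).eventually_ne h3
  have hnear : ∀ᶠ t in 𝓝 τ, t ∈ Ioo (τ - ε / 2) (τ + ε / 2) :=
    Ioo_mem_nhds (by linarith) (by linarith)
  filter_upwards [hmem, hne, hnear] with t ht1 ht2 ht3
  refine ⟨φ, U, mem_interior_iff_mem_nhds.1 ht1, K, h1, h2, ht2, ε / 2, by linarith, ?_⟩
  exact h4.mono (Ioo_subset_Ioo (by linarith [ht3.1]) (by linarith [ht3.2]))

/-- Replacing an arc by a segment. -/
lemma exists_cut {γ : ℝ → ℂ} (J : Jor γ) {a b : ℝ} (hab : a < b) (hb : b < a + 1)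
    (hne : ∀ t, b < t → t < a + 1 → ∀ θ : ℝ, 0 ≤ θ → θ ≤ 1 → γ t ≠ γ a + θ * (γ b - γ a)) :
    ∃ h, Jor h ∧ (∀ t ∈ Icc a b, h t = γ a + ((t - a) / (b - a) : ℝ) * (γ b - γ a)) ∧
      (∀ t ∈ Icc b (a + 1), h t = γ t) := by
  have : Fact ((0:ℝ) < 1) := ⟨one_pos⟩
  have hba : 0 < b - a := by linarith
  obtain ⟨f, hf⟩ : ∃ f : ℝ → ℂ, f = fun t => if t ≤ b then
    γ a + ((t - a) / (b - a) : ℝ) * (γ b - γ a) else γ t := ⟨_, rfl⟩
  have cγ := J.cont
  have cf : Continuous f := by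
    rw [hf]
    refine Continuous.if_le ?_ cγ continuous_id continuous_const ?_
    · refine continuous_const.add (Continuous.mul ?_ continuous_const)
      exact Complex.continuous_ofReal.comp (by fun_prop)
    · intro t ht
      rw [ht, div_self hba.ne']
      simp
  have fa : f a = γ a := by
    rw [hf]
    simp [hab.le]
  have fa1 : f (a + 1) = γ a := by
    rw [hf]
    simp only [not_le.2 hb, if_false]
    exact J.per a
  obtain ⟨h, hh⟩ : ∃ h : ℝ → ℂ, h = fun t : ℝ => AddCircle.liftIco 1 a f (t : AddCircle (1:ℝ)) :=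
    ⟨_, rfl⟩
  have ch : Continuous h := by
    rw [hh]
    exact (AddCircle.liftIco_continuous (by rw [fa, fa1]) cf.continuousOn).comp
      (AddCircle.continuous_mk' (1:ℝ))
  have hval : ∀ t ∈ Ico a (a + 1), h t = f t := by
    intro t ht
    rw [hh]
    exact AddCircle.liftIco_coe_apply ht
  have hper : ∀ t, h (t + 1) = h t := by
    intro t
    rw [hh]
    simp only
    congr 1
    exact AddCircle.coe_add_period (1:ℝ) t
  have h1 : ∀ t ∈ Icc a b, h t = γ a + ((t - a) / (b - a) : ℝ) * (γ b - γ a) := by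
    intro t ht
    rw [hval t ⟨ht.1, by linarith [ht.2]⟩, hf]
    simp only [ht.2, if_true]
  have h2 : ∀ t ∈ Icc b (a + 1), h t = γ t := by
    intro t ht
    rcases ht.2.eq_or_lt with e | e
    · rw [e, hper, J.per, h1 a ⟨le_rfl, hab.le⟩]
      simp
    · rcases ht.1.eq_or_lt with e' | e'
      · rw [h1 t ⟨by linarith, e'.symm.le⟩, ← e', div_self hba.ne']
        simp
      · rw [hval t ⟨by linarith, e⟩, hf]
        simp only [not_le.2 e', if_false]
  have hinj : ∀ s ∈ Ico a (a + 1), ∀ t ∈ Ico a (a + 1), s < t → h s = h t → False := by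
    intro s hs t ht hst e
    have γinj : ∀ x y, x < y → y < x + 1 → γ x ≠ γ y := by
      intro x y h1 h2 h3
      obtain ⟨n, hn⟩ := J.inj x y h3
      have : (n:ℝ) < 0 := by linarith
      have h5 : (-1:ℝ) < n := by linarith
      have h6 : n < 0 := by exact_mod_cast this
      have h7 : -1 < n := by exact_mod_cast h5
      omega
    have hγab : γ b - γ a ≠ 0 := sub_ne_zero.2 (γinj a b hab hb).symm
    rcases le_or_gt t b with htb | htb
    · rw [h1 s ⟨hs.1, by linarith⟩, h1 t ⟨ht.1, htb⟩] at e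
      have e2 := mul_right_cancel₀ hγab (add_left_cancel e)
      have e3 : (s - a) / (b - a) = (t - a) / (b - a) := by exact_mod_cast e2
      rw [div_left_inj' hba.ne'] at e3
      linarith
    · rw [h2 t ⟨htb.le, ht.2.le⟩] at e
      rcases le_or_gt s b with hsb | hsb
      · rw [h1 s ⟨hs.1, hsb⟩] at e
        exact hne t htb ht.2 _ (div_nonneg (by linarith [hs.1]) hba.le)
          ((div_le_one hba).2 (by linarith)) e.symm
      · rw [h2 s ⟨hsb.le, hs.2.le⟩] at e
        exact γinj s t hst (by linarith [ht.2]) e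
  refine ⟨h, ⟨ch, hper, ?_⟩, h1, h2⟩
  intro s t hst
  have hpz : Function.Periodic h 1 := hper
  have hfr : ∀ x : ℝ, h x = h (a + Int.fract (x - a)) := by
    intro x
    have := hpz.sub_zsmul_eq (x := x) ⌊x - a⌋
    rw [← this]
    congr 1
    rw [zsmul_eq_mul, mul_one]
    have := Int.self_sub_floor (x - a)
    linarith
  rw [hfr s, hfr t] at hst
  have hs0 := Int.fract_nonneg (s - a)
  have hs1 := Int.fract_lt_one (s - a)
  have ht0 := Int.fract_nonneg (t - a)
  have ht1 := Int.fract_lt_one (t - a)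
  have e : a + Int.fract (s - a) = a + Int.fract (t - a) := by
    rcases lt_trichotomy (a + Int.fract (s - a)) (a + Int.fract (t - a)) with hlt | heq | hgt
    · exact (hinj _ ⟨by linarith, by linarith⟩ _ ⟨by linarith, by linarith⟩ hlt hst).elim
    · exact heq
    · exact (hinj _ ⟨by linarith, by linarith⟩ _ ⟨by linarith, by linarith⟩ hgt hst.symm).elim
  refine ⟨⌊s - a⌋ - ⌊t - a⌋, ?_⟩
  have e1 := Int.self_sub_floor (s - a)
  have e2 := Int.self_sub_floor (t - a)
  push_cast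
  linarith

end Q169.Cusp
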