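import Pool.Agent.Q169.Cusp.Sweep

/-!
Squares with all vertices on two Lipschitz graphs that meet in a point and on a vertical segment that
cuts off the part near this point.
-/

set_option autoImplicit false

namespace Q169.Cusp

open Set Filter Topology

variable {L : ℝ} {u l : ℝ → ℝ}

/-- No square has all vertices on the two graphs over `(0, X]`. A square has the vertices
`(x, y)`, `(x + a, y + b)`, `(x + a - b, y + a + b)`, `(x - b, y + a)`. -/
def NoSq (u l : ℝ → ℝ) (X : ℝ) : Prop := ∀ x y a b : ℝ, 0 < a →
  0 < x → x ≤ X → 0 < x + a → x + a ≤ X → 0 < x + a - b → x + a - b ≤ X → 0 < x - b → x - b ≤ X →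
  (y = u x ∨ y = l x) → (y + b = u (x + a) ∨ y + b = l (x + a)) →
  (y + a + b = u (x + a - b) ∨ y + a + b = l (x + a - b)) →
  (y + a = u (x - b) ∨ y + a = l (x - b)) → False

lemma NoSq.low {X : ℝ} (hno : NoSq u l X) : NoLow u l X := by
  intro t a ha htX h1 h2 h3 h4 h5
  obtain ⟨b, hb⟩ : ∃ b, b = l t - l (t - a) := ⟨_, rfl⟩
  rw [← hb] at h2 h3 h4 h5
  refine hno (t - a) (l (t - a)) a b ha h1 (by linarith) (by linarith) (by linarith)
    (by linarith) (by linarith) (by linarith) (by linarith) (Or.inr rfl) (Or.inr ?_) (Or.inl ?_)
    (Or.inl ?_)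
  · rw [sub_add_cancel, hb]; ring
  · rw [sub_add_cancel, h4, hb]; ring
  · rw [show t - a - b = t - b - a by ring, h5]

lemma Wedge.flip {X : ℝ} (W : Wedge L u l X) : Wedge L (fun x => - l x) (fun x => - u x) X where
  L0 := W.L0
  L3 := W.L3
  hu x y := by
    have := W.hl x y
    rwa [show - l x - - l y = - (l x - l y) by ring, abs_neg]
  hl x y := by
    have := W.hu x y
    rwa [show - u x - - u y = - (u x - u y) by ring, abs_neg]
  u0 := by simp only [W.l0, neg_zero]
  l0 := by simp only [W.u0, neg_zero]
  pos x h0 h1 := by
    have := W.pos x h0 h1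
    linarith

/-- The fourth vertex lies above the upper graph. -/
lemma Wedge.above {X : ℝ} (W : Wedge L u l X) (hno : NoSq u l X) {x a b y : ℝ} (ha : 0 < a)
    (hX : 3 * (x + a) ≤ X) (hx : 0 < x) (hxb : 0 < x - b) (h1 : y = l x) (h2 : y + b = l (x + a))
    (h3 : y + a + b = u (x + a - b)) : u (x - b) ≤ y + a := by
  have hb : b = l (x + a) - l (x + a - a) := by rw [add_sub_cancel_right, ← h1, ← h2]; ring
  have := W.natural hno.low (t := x + a) (a := a) (by linarith) hX
    (by rw [← hb, ← h2, ← h3]; ring) (by linarith) (by rw [← hb]; linarith)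
  rw [← hb, show x + a - b - a = x - b by ring, add_sub_cancel_right, ← h1] at this
  exact this

/-- The fourth vertex lies below the lower graph. -/
lemma Wedge.below {X : ℝ} (W : Wedge L u l X) (hno : NoSq u l X) {x a b y : ℝ} (ha : 0 < a)
    (hX : 3 * (x + a - b) ≤ X) (hx : 0 < x) (hxb : 0 < x - b) (h4 : y + a = u (x - b))
    (h2 : y + b = l (x + a)) (h3 : y + a + b = u (x + a - b)) : y ≤ l x := by
  have hno' : NoSq (fun x => - l x) (fun x => - u x) X := by
    intro x y a b ha h1 h2 h3 h4 h5 h6 h7 h8 k1 k2 k3 k4
    refine hno (x - b) (- (y + a)) a (-b) ha h7 h8 (by linarith) (by linarith)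
      (by linarith) (by linarith) (by linarith) (by linarith) ?_ ?_ ?_ ?_
    · rcases k4 with k | k
      · right; linarith
      · left; linarith
    · rw [show x - b + a = x + a - b by ring]
      rcases k3 with k | k
      · right; linarith
      · left; linarith
    · rw [show x - b + a - -b = x + a by ring]
      rcases k2 with k | k
      · right; linarith
      · left; linarith
    · rw [show x - b - -b = x by ring]
      rcases k1 with k | k
      · right; linarith
      · left; linarith
  have := W.flip.above hno' (x := x - b) (a := a) (b := -b) (y := -(y + a)) ha (by linarith) hxb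
    (by linarith) (by rw [h4]) (by
      rw [show x - b + a = x + a - b by ring, ← h3]; ring)
    (by rw [show x - b + a - -b = x + a by ring, ← h2]; ring)
  rw [show x - b - -b = x by ring] at this
  linarith

/-- A point of one of the two graphs beyond the cut, or of the open segment of the cut. -/
def OnCut (u l : ℝ → ℝ) (c X : ℝ) (x y : ℝ) : Prop :=
  c ≤ x ∧ 3 * x ≤ X ∧ (y = u x ∨ y = l x ∨ (x = c ∧ l x < y ∧ y < u x))

/-- The exclusion of squares with a vertex on the open segment. -/
theorem Wedge.excl {X c : ℝ} (W : Wedge L u l X) (hno : NoSq u l X) (hc : 0 < c)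
    (hgood : ∀ a, 0 < a → a ≤ u c - l c → 3 * (c + a) ≤ X → a < u (c + a) - l (c + a))
    {x y a b : ℝ} (ha : 0 < a) (hba : |b| ≤ a)
    (h1 : OnCut u l c X x y) (h2 : OnCut u l c X (x + a) (y + b))
    (h3 : OnCut u l c X (x + a - b) (y + a + b)) (h4 : OnCut u l c X (x - b) (y + a)) :
    (y = u x ∨ y = l x) ∧ (y + b = u (x + a) ∨ y + b = l (x + a)) ∧
    (y + a + b = u (x + a - b) ∨ y + a + b = l (x + a - b)) ∧
    (y + a = u (x - b) ∨ y + a = l (x - b)) := by
  have hL0 := W.L0
  have hL1 := L_le W.L0 W.L3
  obtain ⟨c1, X1, h1⟩ := h1
  obtain ⟨c2, X2, h2⟩ := h2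
  obtain ⟨c3, X3, h3⟩ := h3
  obtain ⟨c4, X4, h4⟩ := h4
  have hb := abs_le.1 hba
  have hLa : L * a < a := by nlinarith
  have hLb : L * |b| < a := by nlinarith [abs_nonneg b]
  have h2' : y + b = u (x + a) ∨ y + b = l (x + a) := by
    rcases h2 with h | h | ⟨h, -, -⟩
    · exact Or.inl h
    · exact Or.inr h
    · exfalso; linarith
  have h3' : y + a + b = u (x + a - b) ∨ y + a + b = l (x + a - b) := by
    rcases h3 with h | h | ⟨h, -, -⟩
    · exact Or.inl h
    · exact Or.inr h
    · exfalso; linarith
  -- both vertices on the right cannot be on the same graph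
  have hR : ∀ f : ℝ → ℝ, (∀ x y, |f x - f y| ≤ L * |x - y|) → y + b = f (x + a) →
      y + a + b = f (x + a - b) → False := by
    intro f hf k1 k2
    have := hf (x + a - b) (x + a)
    rw [← k1, ← k2, show y + a + b - (y + b) = a by ring, show x + a - b - (x + a) = -b by ring,
      abs_neg, abs_of_pos ha] at this
    linarith
  have hcX : 3 * (x + a) ≤ X := X2
  have hlt : l (x + a) < u (x + a) := W.pos _ (by linarith) (by linarith)
  have hlt3 : l (x + a - b) < u (x + a - b) := W.pos _ (by linarith) (by linarith)
  -- the two left vertices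
  rcases lt_trichotomy b 0 with hneg | hzero | hposb
  · -- the bottom left vertex is the leftmost one
    have h4' : y + a = u (x - b) ∨ y + a = l (x - b) := by
      rcases h4 with h | h | ⟨h, -, -⟩
      · exact Or.inl h
      · exact Or.inr h
      · exfalso; linarith
    refine ⟨?_, h2', h3', h4'⟩
    rcases h1 with h | h | ⟨hxc, hy1, hy2⟩
    · exact Or.inl h
    · exact Or.inr h
    exfalso
    -- the top left vertex is on the upper graph
    have h4u : y + a = u (x - b) := by
      rcases h4' with h | h
      · exact h
      · exfalso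
        have := W.hl (x - b) x
        rw [show x - b - x = -b by ring, abs_neg, ← h] at this
        have := (abs_le.1 this).2
        linarith
    have h3u : y + a + b = u (x + a - b) := by
      rcases h3' with h | h
      · exact h
      · exfalso
        rcases h2' with h' | h'
        · have := W.hu (x - b) (x + a)
          rw [← h', ← h4u, show y + a - (y + b) = a - b by ring,
            abs_of_pos (by linarith : 0 < a - b)] at this
          have h5 : |x - b - (x + a)| ≤ a - b := by
            rw [abs_le]; constructor <;> linarith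
          have h6 : L * |x - b - (x + a)| ≤ 3 / 5 * (a - b) :=
            mul_le_mul hL1 h5 (abs_nonneg _) (by norm_num)
          linarith
        · exact hR l W.hl h' h
    have h2l : y + b = l (x + a) := by
      rcases h2' with h | h
      · exact (hR u W.hu h h3u).elim
      · exact h
    have := W.below hno ha X3 (by linarith) (by linarith) h4u h2l h3u
    linarith
  · subst hzero
    simp only [sub_zero, add_zero] at *
    have h2l : y = l (x + a) := by
      rcases h2' with h | h
      · exfalso
        rcases h3' with h' | h'
        · exact hR u W.hu h h'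
        · linarith
      · exact h
    have h3u : y + a = u (x + a) := by
      rcases h3' with h | h
      · exact h
      · exfalso; linarith
    have hex : ∀ y', (y' = u x ∨ y' = l x ∨ (x = c ∧ l x < y' ∧ y' < u x)) → l x ≤ y' ∧ y' ≤ u x := by
      intro y' h
      have := W.pos x (by linarith) (by linarith)
      rcases h with h | h | ⟨-, h, h'⟩
      · rw [h]; exact ⟨this.le, le_rfl⟩
      · rw [h]; exact ⟨le_rfl, this.le⟩
      · exact ⟨h.le, h'.le⟩
    have b1 := hex _ h1
    have b4 := hex _ h4
    have key : x = c → False := by
      intro hxc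
      subst hxc
      have := hgood a ha (by linarith) X2
      linarith
    refine ⟨?_, Or.inr h2l, Or.inl h3u, ?_⟩
    · rcases h1 with h | h | ⟨h, -, -⟩
      · exact Or.inl h
      · exact Or.inr h
      · exact (key h).elim
    · rcases h4 with h | h | ⟨h, -, -⟩
      · exact Or.inl h
      · exact Or.inr h
      · exact (key h).elim
  · have h1' : y = u x ∨ y = l x := by
      rcases h1 with h | h | ⟨h, -, -⟩
      · exact Or.inl h
      · exact Or.inr h
      · exfalso; linarith
    refine ⟨h1', h2', h3', ?_⟩
    rcases h4 with h | h | ⟨hxc, hy1, hy2⟩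
    · exact Or.inl h
    · exact Or.inr h
    exfalso
    have h1l : y = l x := by
      rcases h1' with h | h
      · exfalso
        have := W.hu (x - b) x
        rw [show x - b - x = -b by ring, abs_neg, ← h] at this
        have := (abs_le.1 this).2
        linarith
      · exact h
    have h3u : y + a + b = u (x + a - b) := by
      rcases h3' with h | h
      · exact h
      · exfalso
        have := W.hl (x + a - b) x
        rw [← h, ← h1l, show y + a + b - y = a + b by ring, show x + a - b - x = a - b by ring,
          abs_of_pos (by linarith : 0 < a + b), abs_of_nonneg (by linarith : 0 ≤ a - b)] at this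
        nlinarith
    have h2l : y + b = l (x + a) := by
      rcases h2' with h | h
      · exact (hR u W.hu h h3u).elim
      · exact h
    have := W.above hno ha hcX (by linarith) (by linarith) h1l h2l h3u
    linarith

end Q169.Cusp
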