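import Pool.Agent.Q169.Cusp.Step

/-!
Induction on the number of cusps.
-/

set_option autoImplicit false

namespace Q169.Cusp

open Set Filter Topology

open H145R2.TSq (Jor)

/-- A cusp with Lipschitz sides. -/
def IsCusp (γ : ℝ → ℂ) (τ : ℝ) : Prop := ∃ (L : ℝ) (e : ℂ) (δ : ℝ), 0 < L ∧ 3 * L ^ 2 ≤ 1 ∧
  ‖e‖ = 1 ∧ 0 < δ ∧ δ ≤ 1 / 4 ∧ Cone L γ τ e δ

lemma per_sub {γ : ℝ → ℂ} (J : Jor γ) (n : ℤ) (t : ℝ) : γ (t - n) = γ t := by
  have hp : Function.Periodic γ 1 := J.per
  have := hp.sub_zsmul_eq (x := t) n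
  rwa [zsmul_eq_mul, mul_one] at this

lemma IsCusp.add_int {γ : ℝ → ℂ} (J : Jor γ) {τ : ℝ} (n : ℤ) (H : IsCusp γ τ) :
    IsCusp γ (τ + n) := by
  obtain ⟨L, e, δ, hL0, hL3, he, h0, h1, h2, h3⟩ := H
  refine ⟨L, e, δ, hL0, hL3, he, h0, h1, ?_, ?_⟩
  · intro s t a b c
    have := h2 (s - n) (t - n) (by linarith) (by linarith) (by linarith)
    simpa only [per_sub J] using this
  · intro s t a b c
    have := h3 (s - n) (t - n) (by linarith) (by linarith) (by linarith)
    simpa only [per_sub J] using this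

lemma IsCusp.congr {γ h : ℝ → ℂ} {τ r : ℝ} (hr : 0 < r) (e : ∀ t, |t - τ| ≤ r → h t = γ t)
    (H : IsCusp γ τ) : IsCusp h τ := by
  obtain ⟨L, v, δ, hL0, hL3, he, h0, h1, h2, h3⟩ := H
  refine ⟨L, v, min δ r, hL0, hL3, he, lt_min h0 hr, (min_le_left _ _).trans h1, ?_, ?_⟩
  · intro s t a b c
    have m1 := min_le_left δ r
    have m2 := min_le_right δ r
    rw [e s (abs_le.2 ⟨by linarith, by linarith⟩), e t (abs_le.2 ⟨by linarith, by linarith⟩)]
    exact h2 s t a b (by linarith)
  · intro s t a b c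
    have m1 := min_le_left δ r
    have m2 := min_le_right δ r
    rw [e s (abs_le.2 ⟨by linarith, by linarith⟩), e t (abs_le.2 ⟨by linarith, by linarith⟩)]
    exact h3 s t (by linarith) b c

/-- The curve is locally a graph at all other parameters near a cusp. -/
lemma IsCusp.isolated {γ : ℝ → ℂ} {τ : ℝ} (H : IsCusp γ τ) :
    ∃ δ > 0, ∀ t, |t - τ| < δ → t ≠ τ → LG γ t := by
  obtain ⟨L, e, δ, hL0, hL3, he, h0, h1, h2, h3⟩ := H
  have ene : e ≠ 0 := by intro h; rw [h, norm_zero] at he; norm_num at he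
  refine ⟨δ, h0, ?_⟩
  intro t ht htτ
  have ht' := abs_lt.1 ht
  rcases lt_or_gt_of_ne htτ with h | h
  · refine LG_of_mono (w := -e) (neg_ne_zero.2 ene) (ε := min (τ - t) (t - (τ - δ)))
      (lt_min (by linarith) (by linarith)) ?_
    intro s t' a b c
    have m1 := min_le_left (τ - t) (t - (τ - δ))
    have m2 := min_le_right (τ - t) (t - (τ - δ))
    have := h3 s t' (by linarith) b (by linarith)
    have h5 := abs_nonneg ((starRingEnd ℂ) e * (γ s - γ t')).im
    have e1 : (starRingEnd ℂ) (-e) * (γ t' - γ s) = (starRingEnd ℂ) e * (γ s - γ t') := by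
      rw [map_neg]; ring
    rw [e1]
    exact nonneg_of_mul_nonneg_right (h5.trans this) hL0
  · refine LG_of_mono (w := e) ene (ε := min (t - τ) (τ + δ - t))
      (lt_min (by linarith) (by linarith)) ?_
    intro s t' a b c
    have m1 := min_le_left (t - τ) (τ + δ - t)
    have m2 := min_le_right (t - τ) (τ + δ - t)
    have := h2 s t' (by linarith) b (by linarith)
    have h5 := abs_nonneg ((starRingEnd ℂ) e * (γ t' - γ s)).im
    exact nonneg_of_mul_nonneg_right (h5.trans this) hL0

theorem main_finite (F : Finset ℝ) : ∀ γ : ℝ → ℂ, Jor γ →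
    (∀ τ, LG γ τ ∨ ((∃ f ∈ F, ∃ n : ℤ, τ = f + n) ∧ IsCusp γ τ)) → HasSq γ := by
  induction F using Finset.induction_on with
  | empty =>
    intro γ J H
    refine hasSq_of_LG J fun τ => ?_
    rcases H τ with h | ⟨⟨f, hf, -⟩, -⟩
    · exact h
    · exact absurd hf (Finset.notMem_empty f)
  | insert f F hf ih =>
    intro γ J H
    by_contra hno
    by_cases hfc : IsCusp γ f
    · obtain ⟨L, e, δ, hL0, hL3, he, h0, h1, hC⟩ := hfc
      obtain ⟨m, hm, hstep⟩ := cusp_step hL0 hL3 J he h0 h1 hC hno
      apply hno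
      have hK : IsCompact (range γ) := by
        have : range γ = γ '' Icc 0 1 := by
          apply Subset.antisymm
          · rintro _ ⟨t, rfl⟩
            refine ⟨Int.fract t, ⟨Int.fract_nonneg t, (Int.fract_lt_one t).le⟩, ?_⟩
            have := per_sub J ⌊t⌋ t
            rw [← this]
            rfl
          · exact image_subset_range _ _
        rw [this]
        exact isCompact_Icc.image J.cont
      refine exists_square_limit hK hm ?_
      intro ρ hρ
      obtain ⟨a, b, h, ha1, ha2, hb1, hb2, Jh, hout, hLG, hsq⟩ := hstep ρ hρ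
      have Hh : ∀ τ, LG h τ ∨ ((∃ f' ∈ F, ∃ n : ℤ, τ = f' + n) ∧ IsCusp h τ) := by
        intro τ
        obtain ⟨τ', hτ', n, hn⟩ : ∃ τ' ∈ Ico a (a + 1), ∃ n : ℤ, τ = τ' + n := by
          refine ⟨a + Int.fract (τ - a), ⟨?_, ?_⟩, ⌊τ - a⌋, ?_⟩
          · linarith [Int.fract_nonneg (τ - a)]
          · linarith [Int.fract_lt_one (τ - a)]
          · have := Int.self_sub_floor (τ - a)
            linarith
        rw [hn]
        rcases le_or_gt τ' b with hb | hb
        · exact Or.inl (LG_add_int Jh n (hLG τ' ⟨hτ'.1, hb⟩))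
        · have hnb : ∀ t, |t - τ'| ≤ min (τ' - b) (a + 1 - τ') → h t = γ t := by
            intro t ht
            have m1 := min_le_left (τ' - b) (a + 1 - τ')
            have m2 := min_le_right (τ' - b) (a + 1 - τ')
            have := abs_le.1 ht
            exact hout t ⟨by linarith, by linarith⟩
          have hpos : 0 < min (τ' - b) (a + 1 - τ') := lt_min (by linarith) (by linarith [hτ'.2])
          rcases H τ' with hLG' | ⟨⟨f', hf', n', hn'⟩, hc⟩
          · left
            refine LG_add_int Jh n (LG_congr ?_ hLG')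
            refine Metric.eventually_nhds_iff.2 ⟨_, hpos, fun t ht => hnb t ?_⟩
            rw [Real.dist_eq] at ht
            exact ht.le
          · right
            have hne : f' ≠ f := by
              rintro rfl
              have k1 : (0:ℝ) < n' := by linarith
              have k2 : (n':ℝ) < 1 := by linarith [hτ'.2]
              have k3 : 0 < n' := by exact_mod_cast k1
              have k4 : n' < 1 := by exact_mod_cast k2
              omega
            refine ⟨⟨f', ?_, n' + n, ?_⟩, (IsCusp.congr hpos hnb hc).add_int Jh n⟩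
            · rcases Finset.mem_insert.1 hf' with h5 | h5
              · exact absurd h5 hne
              · exact h5
            · rw [hn']
              push_cast
              ring
      obtain ⟨z, w, hw, s1, s2, s3, s4⟩ := ih h Jh Hh
      have hall : ∀ v, Vtx z w v → v ∈ range h := by
        rintro v (rfl | rfl | rfl | rfl)
        · exact s1
        · exact s2
        · exact s3
        · exact s4
      obtain ⟨hmw, hd⟩ := hsq z w hw hall
      exact ⟨z, w, hmw, hd _ (Or.inl rfl), hd _ (Or.inr (Or.inl rfl)),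
        hd _ (Or.inr (Or.inr (Or.inl rfl))), hd _ (Or.inr (Or.inr (Or.inr rfl)))⟩
    · apply hno
      refine ih γ J fun τ => ?_
      rcases H τ with h | ⟨⟨f', hf', n, hn⟩, hc⟩
      · exact Or.inl h
      · right
        rcases Finset.mem_insert.1 hf' with h5 | h5
        · exfalso
          apply hfc
          have := hc.add_int J (-n)
          rw [hn, h5] at this
          push_cast at this
          rwa [add_neg_cancel_right] at this
        · exact ⟨⟨f', h5, n, hn⟩, hc⟩

theorem main_cusp {γ : ℝ → ℂ} (J : Jor γ) (H : ∀ τ, LG γ τ ∨ IsCusp γ τ) : HasSq γ := by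
  have hfin : (Icc (0:ℝ) 1 ∩ {τ | ¬ LG γ τ}).Finite := by
    by_contra hinf
    obtain ⟨x, hx, hacc⟩ := Set.Infinite.exists_accPt_of_subset_isCompact hinf isCompact_Icc
      inter_subset_left
    rw [accPt_iff_frequently] at hacc
    apply hacc
    rcases H x with h | h
    · filter_upwards [LG_open J.cont h] with t ht
      rintro ⟨-, -, h3⟩
      exact h3 ht
    · obtain ⟨δ, hδ, h'⟩ := h.isolated
      refine Metric.eventually_nhds_iff.2 ⟨δ, hδ, ?_⟩
      rintro t ht ⟨h1, -, h3⟩
      rw [Real.dist_eq] at ht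
      exact h3 (h' t ht h1)
  refine main_finite hfin.toFinset γ J fun τ => ?_
  by_cases hLG : LG γ τ
  · exact Or.inl hLG
  · right
    refine ⟨⟨Int.fract τ, ?_, ⌊τ⌋, ?_⟩, ?_⟩
    · rw [Set.Finite.mem_toFinset]
      refine ⟨⟨Int.fract_nonneg τ, (Int.fract_lt_one τ).le⟩, ?_⟩
      intro h
      apply hLG
      have := LG_add_int J ⌊τ⌋ h
      rwa [Int.fract_add_floor] at this
    · rw [Int.fract_add_floor]
    · rcases H τ with h | h
      · exact absurd h hLG
      · exact h

end Q169.Cusp
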