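import Pool.Agent.Q169.Cusp.Exclude
import Pool.Agent.Q169.Cusp.Cut

/-!
The two arcs at a cusp as graphs of Lipschitz functions.
-/

set_option autoImplicit false

namespace Q169.Cusp

open Set Filter Topology

open H145R2.TSq (Jor)

/-- Both arcs that issue from the point with the parameter `τ` are near this point graphs over the ray
with direction `e` of functions with the Lipschitz constant `L`. -/
def Cone (L : ℝ) (γ : ℝ → ℂ) (τ : ℝ) (e : ℂ) (δ : ℝ) : Prop :=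
  (∀ s t, τ ≤ s → s ≤ t → t ≤ τ + δ →
    |((starRingEnd ℂ) e * (γ t - γ s)).im| ≤ L * ((starRingEnd ℂ) e * (γ t - γ s)).re) ∧
  (∀ s t, τ - δ ≤ s → s ≤ t → t ≤ τ →
    |((starRingEnd ℂ) e * (γ s - γ t)).im| ≤ L * ((starRingEnd ℂ) e * (γ s - γ t)).re)

lemma Cone.mono {L : ℝ} {γ : ℝ → ℂ} {τ : ℝ} {e : ℂ} {δ δ' : ℝ} (h : Cone L γ τ e δ)
    (hd : δ' ≤ δ) : Cone L γ τ e δ' :=
  ⟨fun s t h1 h2 h3 => h.1 s t h1 h2 (by linarith),
    fun s t h1 h2 h3 => h.2 s t (by linarith) h2 h3⟩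

lemma Jor.ne {γ : ℝ → ℂ} (J : Jor γ) {x y : ℝ} (h1 : x < y) (h2 : y < x + 1) : γ x ≠ γ y := by
  intro h3
  obtain ⟨n, hn⟩ := J.inj x y h3
  have : (n:ℝ) < 0 := by linarith
  have h5 : (-1:ℝ) < n := by linarith
  have h6 : n < 0 := by exact_mod_cast this
  have h7 : -1 < n := by exact_mod_cast h5
  omega

lemma abs_clamp (X x y : ℝ) : |max 0 (min x X) - max 0 (min y X)| ≤ |x - y| := by
  have h1 := abs_max_sub_max_le_max 0 (min x X) 0 (min y X)
  have h2 := abs_min_sub_min_le_max x X y X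
  simp only [sub_self, abs_zero] at h1 h2
  have h3 : max |x - y| 0 = |x - y| := max_eq_left (abs_nonneg _)
  rw [h3] at h2
  have h4 : max 0 |min x X - min y X| = |min x X - min y X| := max_eq_right (abs_nonneg _)
  rw [h4] at h1
  exact h1.trans h2

/-- The inverse of the abscissa along one arc, and the graph function. `g` is the arc in coordinates,
`g 0 = 0`. -/
lemma arc_graph {L : ℝ} (hL0 : 0 < L) {g : ℝ → ℂ} (hg : Continuous g) (g0 : g 0 = 0) {δ X : ℝ}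
    (hδ : 0 < δ) (hX : 0 < X) (hXδ : X ≤ (g δ).re)
    (hcone : ∀ s t, 0 ≤ s → s ≤ t → t ≤ δ → |(g t - g s).im| ≤ L * (g t - g s).re) :
    ∃ (T p : ℝ → ℝ), (∀ x, 0 ≤ x → x ≤ X → 0 ≤ T x ∧ T x ≤ δ ∧ (g (T x)).re = x ∧
      (g (T x)).im = p x) ∧ (∀ x y, |p x - p y| ≤ L * |x - y|) ∧ p 0 = 0 ∧
      (∀ t, 0 ≤ t → t ≤ δ → (g t).re ≤ X → (g t).im = p (g t).re) := by
  have hre : Continuous fun t => (g t).re := Complex.continuous_re.comp hg
  have hex : ∀ x, ∃ t, 0 ≤ x → x ≤ X → 0 ≤ t ∧ t ≤ δ ∧ (g t).re = x := by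
    intro x
    by_cases h : 0 ≤ x ∧ x ≤ X
    · obtain ⟨t, ht, hx⟩ := intermediate_value_Icc hδ.le hre.continuousOn
        (show x ∈ Icc ((g 0).re) ((g δ).re) by
          rw [g0]
          exact ⟨h.1, h.2.trans hXδ⟩)
      exact ⟨t, fun _ _ => ⟨ht.1, ht.2, hx⟩⟩
    · exact ⟨0, fun h1 h2 => absurd ⟨h1, h2⟩ h⟩
  choose T hT using hex
  have hlip : ∀ s t, 0 ≤ s → s ≤ δ → 0 ≤ t → t ≤ δ →
      |(g t).im - (g s).im| ≤ L * |(g t).re - (g s).re| := by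
    intro s t hs0 hs1 ht0 ht1
    rcases le_total s t with h | h
    · have := hcone s t hs0 h ht1
      rw [Complex.sub_im, Complex.sub_re] at this
      have h0 := abs_nonneg ((g t).im - (g s).im)
      have h1 := nonneg_of_mul_nonneg_right (h0.trans this) hL0
      rwa [abs_of_nonneg h1]
    · have := hcone t s ht0 h hs1
      rw [Complex.sub_im, Complex.sub_re, abs_sub_comm] at this
      have h0 := abs_nonneg ((g t).im - (g s).im)
      have h1 := nonneg_of_mul_nonneg_right (h0.trans this) hL0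
      rwa [abs_of_nonpos (show (g t).re - (g s).re ≤ 0 by linarith), neg_sub]
  set cl : ℝ → ℝ := fun x => max 0 (min x X) with hcl
  have cl0 : ∀ x, 0 ≤ cl x := fun x => le_max_left _ _
  have cl1 : ∀ x, cl x ≤ X := fun x => max_le hX.le (min_le_right _ _)
  have cle : ∀ x, 0 ≤ x → x ≤ X → cl x = x := fun x h0 h1 => by
    simp only [hcl]
    rw [min_eq_left h1, max_eq_right h0]
  have him : ∀ s t, 0 ≤ s → s ≤ δ → 0 ≤ t → t ≤ δ → (g t).re = (g s).re → (g t).im = (g s).im := by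
    intro s t hs0 hs1 ht0 ht1 he
    have := hlip s t hs0 hs1 ht0 ht1
    rw [he, sub_self, abs_zero, mul_zero] at this
    have := abs_nonpos_iff.1 this
    linarith
  refine ⟨T, fun x => (g (T (cl x))).im, ?_, ?_, ?_, ?_⟩
  · intro x h0 h1
    obtain ⟨a1, a2, a3⟩ := hT x h0 h1
    refine ⟨a1, a2, a3, ?_⟩
    simp only [cle x h0 h1]
  · intro x y
    obtain ⟨a1, a2, a3⟩ := hT (cl x) (cl0 x) (cl1 x)
    obtain ⟨b1, b2, b3⟩ := hT (cl y) (cl0 y) (cl1 y)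
    have h1 := hlip _ _ b1 b2 a1 a2
    rw [a3, b3] at h1
    exact h1.trans (mul_le_mul_of_nonneg_left (abs_clamp X x y) hL0.le)
  · simp only [cle 0 le_rfl hX.le]
    obtain ⟨a1, a2, a3⟩ := hT 0 le_rfl hX.le
    have := him 0 (T 0) le_rfl hδ.le a1 a2 (by rw [a3, g0]; rfl)
    rw [this, g0]
    rfl
  · intro t h0 h1 hX1
    have hr0 : 0 ≤ (g t).re := by
      have := hcone 0 t le_rfl h0 h1
      rw [g0, sub_zero] at this
      exact nonneg_of_mul_nonneg_right ((abs_nonneg (g t).im).trans this) hL0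
    simp only [cle _ hr0 hX1]
    obtain ⟨a1, a2, a3⟩ := hT _ hr0 hX1
    exact him _ _ a1 a2 h0 h1 a3.symm

/-- A level below all later values. -/
lemma exists_low {w : ℝ → ℝ} (hw : Continuous w) {X cm : ℝ} (hcm : 0 < cm) (hcX : cm ≤ X)
    (h0 : w 0 = 0) (hpos : ∀ x, 0 < x → x ≤ X → 0 < w x) :
    ∃ c, 0 < c ∧ c ≤ cm ∧ ∀ x, c < x → x ≤ X → w c < w x := by
  obtain ⟨y, hy, hmin⟩ := isCompact_Icc.exists_isMinOn (⟨cm, le_rfl, hcX⟩ : (Icc cm X).Nonempty)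
    hw.continuousOn
  have hμ : 0 < w y := hpos y (by linarith [hy.1]) hy.2
  have hS : IsCompact (Icc 0 cm ∩ {x | w x ≤ w y / 2}) :=
    isCompact_Icc.inter_right (isClosed_le hw continuous_const)
  have hne : (Icc 0 cm ∩ {x | w x ≤ w y / 2}).Nonempty :=
    ⟨0, ⟨le_rfl, hcm.le⟩, show w 0 ≤ w y / 2 by rw [h0]; linarith⟩
  obtain ⟨c, hc, hmax⟩ := hS.exists_isGreatest hne
  have hcpos : 0 < c := by
    have hev : ∀ᶠ x in 𝓝 (0:ℝ), w x < w y / 2 := by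
      have := hw.continuousAt (x := 0)
      exact this.eventually (show ∀ᶠ y' in 𝓝 (w 0), y' < w y / 2 from by
        rw [h0]; exact Iio_mem_nhds (by linarith))
    obtain ⟨r, hr, hr'⟩ := Metric.eventually_nhds_iff.1 hev
    have h1 : w (min (r / 2) cm) < w y / 2 := hr' (by
      rw [dist_zero_right, Real.norm_eq_abs, abs_of_pos (lt_min (by linarith) hcm)]
      linarith [min_le_left (r / 2) cm])
    have := hmax ⟨⟨(lt_min (by linarith) hcm).le, min_le_right _ _⟩, h1.le⟩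
    exact lt_of_lt_of_le (lt_min (by linarith) hcm) this
  refine ⟨c, hcpos, hc.1.2, ?_⟩
  intro x hcx hxX
  have hwc : w c ≤ w y / 2 := hc.2
  rcases le_total x cm with h | h
  · by_contra hcon
    rw [not_lt] at hcon
    have : x ≤ c := hmax ⟨⟨by linarith, h⟩, show w x ≤ w y / 2 by linarith⟩
    linarith
  · have : w y ≤ w x := hmin (a := x) ⟨h, hxX⟩
    linarith

/-- A limit of squares. -/
lemma exists_square_limit {K : Set ℂ} (hK : IsCompact K) {m : ℝ} (hm : 0 < m)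
    (h : ∀ ρ > 0, ∃ z w : ℂ, m ≤ ‖w‖ ∧ (∃ c ∈ K, ‖z - c‖ ≤ ρ) ∧ (∃ c ∈ K, ‖z + w - c‖ ≤ ρ) ∧
      (∃ c ∈ K, ‖z + w + Complex.I * w - c‖ ≤ ρ) ∧ (∃ c ∈ K, ‖z + Complex.I * w - c‖ ≤ ρ)) :
    ∃ z w : ℂ, w ≠ 0 ∧ z ∈ K ∧ z + w ∈ K ∧ z + w + Complex.I * w ∈ K ∧ z + Complex.I * w ∈ K := by
  have hcl : IsClosed K := hK.isClosed
  have hn : ∀ n : ℕ, ∃ q : ℂ × ℂ, m ≤ ‖q.2‖ ∧ (∃ c ∈ K, ‖q.1 - c‖ ≤ 1 / ((n:ℝ) + 1)) ∧
      (∃ c ∈ K, ‖q.1 + q.2 - c‖ ≤ 1 / ((n:ℝ) + 1)) ∧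
      (∃ c ∈ K, ‖q.1 + q.2 + Complex.I * q.2 - c‖ ≤ 1 / ((n:ℝ) + 1)) ∧
      (∃ c ∈ K, ‖q.1 + Complex.I * q.2 - c‖ ≤ 1 / ((n:ℝ) + 1)) := by
    intro n
    obtain ⟨z, w, h1, h2, h3, h4, h5⟩ := h (1 / ((n:ℝ) + 1)) (by positivity)
    exact ⟨(z, w), h1, h2, h3, h4, h5⟩
  choose q hq using hn
  choose c1 hc1 using fun n => (hq n).2.1
  choose c2 hc2 using fun n => (hq n).2.2.1
  choose c3 hc3 using fun n => (hq n).2.2.2.1
  choose c4 hc4 using fun n => (hq n).2.2.2.2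
  have hKK : IsCompact (K ×ˢ K) := hK.prod hK
  obtain ⟨⟨a, b⟩, hab, φ, hφ, hlim⟩ := hKK.tendsto_subseq (x := fun n => (c1 n, c2 n))
    (fun n => ⟨(hc1 n).1, (hc2 n).1⟩)
  have hr0 : Tendsto (fun n : ℕ => 1 / (((φ n : ℕ):ℝ) + 1)) atTop (𝓝 0) :=
    tendsto_one_div_add_atTop_nhds_zero_nat.comp hφ.tendsto_atTop
  have hl1 : Tendsto (fun n => c1 (φ n)) atTop (𝓝 a) :=
    (continuous_fst.tendsto _).comp hlim
  have hl2 : Tendsto (fun n => c2 (φ n)) atTop (𝓝 b) :=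
    (continuous_snd.tendsto _).comp hlim
  have d1 : Tendsto (fun n => (q (φ n)).1 - c1 (φ n)) atTop (𝓝 0) :=
    squeeze_zero_norm (fun n => (hc1 (φ n)).2) hr0
  have d2 : Tendsto (fun n => (q (φ n)).1 + (q (φ n)).2 - c2 (φ n)) atTop (𝓝 0) :=
    squeeze_zero_norm (fun n => (hc2 (φ n)).2) hr0
  have d3 : Tendsto (fun n => (q (φ n)).1 + (q (φ n)).2 + Complex.I * (q (φ n)).2 - c3 (φ n))
      atTop (𝓝 0) := squeeze_zero_norm (fun n => (hc3 (φ n)).2) hr0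
  have d4 : Tendsto (fun n => (q (φ n)).1 + Complex.I * (q (φ n)).2 - c4 (φ n)) atTop (𝓝 0) :=
    squeeze_zero_norm (fun n => (hc4 (φ n)).2) hr0
  have e1 : Tendsto (fun n => (q (φ n)).1) atTop (𝓝 a) := by
    have := d1.add hl1
    simpa using this
  have e2' : Tendsto (fun n => (q (φ n)).1 + (q (φ n)).2) atTop (𝓝 b) := by
    have := d2.add hl2
    simpa using this
  have e2 : Tendsto (fun n => (q (φ n)).2) atTop (𝓝 (b - a)) := by
    have := e2'.sub e1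
    simpa using this
  have e3 : Tendsto (fun n => c3 (φ n)) atTop (𝓝 (a + (b - a) + Complex.I * (b - a))) := by
    have := ((e1.add e2).add (e2.const_mul Complex.I)).sub d3
    simpa using this
  have e4 : Tendsto (fun n => c4 (φ n)) atTop (𝓝 (a + Complex.I * (b - a))) := by
    have := (e1.add (e2.const_mul Complex.I)).sub d4
    simpa using this
  refine ⟨a, b - a, ?_, hab.1, by rw [add_sub_cancel]; exact hab.2, ?_, ?_⟩
  · intro h0
    have h5 : m ≤ ‖b - a‖ := ge_of_tendsto' (e2.norm) (fun n => (hq (φ n)).1)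
    rw [h0, norm_zero] at h5
    linarith
  · exact hcl.mem_of_tendsto e3 (Filter.Eventually.of_forall fun n => (hc3 (φ n)).1)
  · exact hcl.mem_of_tendsto e4 (Filter.Eventually.of_forall fun n => (hc4 (φ n)).1)

end Q169.Cusp
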