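import Pool.Agent.Q169.Cusp.Frame

/-!
Cutting off the tip of a cusp.
-/

set_option autoImplicit false

namespace Q169.Cusp

open Set Filter Topology

open H145R2.TSq (Jor)

/-- Relabelling the vertices of a square. -/
lemma relabel (Q : ℝ → ℝ → Prop) {x y A B : ℝ} (h0 : A ≠ 0 ∨ B ≠ 0) (h1 : Q x y)
    (h2 : Q (x + A) (y + B)) (h3 : Q (x + A - B) (y + A + B)) (h4 : Q (x - B) (y + A)) :
    ∃ x' y' a b : ℝ, 0 < a ∧ |b| ≤ a ∧ Q x' y' ∧ Q (x' + a) (y' + b) ∧
      Q (x' + a - b) (y' + a + b) ∧ Q (x' - b) (y' + a) := by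
  rcases le_or_gt |B| |A| with h | h
  · have hA : A ≠ 0 := by
      rintro rfl
      rw [abs_zero] at h
      have : B = 0 := abs_nonpos_iff.1 h
      simp_all
    rcases lt_or_gt_of_ne hA with hA | hA
    · refine ⟨x + A - B, y + A + B, -A, -B, by linarith, ?_, h3, ?_, ?_, ?_⟩
      · rw [abs_neg]; rwa [abs_of_neg hA] at h
      · convert h4 using 1 <;> ring
      · convert h1 using 1 <;> ring
      · convert h2 using 1 <;> ring
    · refine ⟨x, y, A, B, hA, ?_, h1, h2, h3, h4⟩
      rwa [abs_of_pos hA] at h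
  · have hB : B ≠ 0 := by
      rintro rfl
      rw [abs_zero] at h
      exact absurd h (not_lt.2 (abs_nonneg _))
    rcases lt_or_gt_of_ne hB with hB | hB
    · refine ⟨x + A, y + B, -B, A, by linarith, ?_, h2, ?_, ?_, ?_⟩
      · rw [abs_of_neg hB] at h; exact h.le
      · convert h3 using 1 <;> ring
      · convert h4 using 1 <;> ring
      · convert h1 using 1 <;> ring
    · refine ⟨x - B, y + A, B, -A, hB, ?_, h4, ?_, ?_, ?_⟩
      · rw [abs_neg]; rw [abs_of_pos hB] at h; exact h.le
      · convert h1 using 1 <;> ring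
      · convert h2 using 1 <;> ring
      · convert h3 using 1 <;> ring

/-- The four vertices of a square. -/
def Vtx (z w v : ℂ) : Prop := v = z ∨ v = z + w ∨ v = z + w + Complex.I * w ∨ v = z + Complex.I * w

lemma Vtx.norm_le {z w v : ℂ} (h : Vtx z w v) : ‖v - z‖ ≤ 2 * ‖w‖ := by
  have hI : ‖Complex.I * w‖ = ‖w‖ := by rw [norm_mul, Complex.norm_I, one_mul]
  have h0 := norm_nonneg w
  rcases h with h | h | h | h
  · rw [h, sub_self, norm_zero]; linarith
  · rw [h, add_sub_cancel_left]; linarith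
  · rw [h, show z + w + Complex.I * w - z = w + Complex.I * w by ring]
    exact (norm_add_le _ _).trans (by rw [hI]; linarith)
  · rw [h, add_sub_cancel_left, hI]; linarith

/-- Monotone in a direction on both sides. -/
lemma LG_of_two {γ : ℝ → ℂ} {τ ε : ℝ} {w : ℂ} (hw : w ≠ 0) (hε : 0 < ε)
    (h1 : ∀ s t, τ - ε < s → s ≤ t → t ≤ τ → 0 ≤ ((starRingEnd ℂ) w * (γ t - γ s)).re)
    (h2 : ∀ s t, τ ≤ s → s ≤ t → t < τ + ε → 0 ≤ ((starRingEnd ℂ) w * (γ t - γ s)).re) :
    LG γ τ := by
  refine LG_of_mono hw hε ?_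
  intro s t hs hst ht
  rcases le_total t τ with h | h
  · exact h1 s t hs hst h
  · rcases le_total τ s with h' | h'
    · exact h2 s t h' hst ht
    · have a := h1 s τ hs h' le_rfl
      have b := h2 τ t le_rfl h ht
      have : (starRingEnd ℂ) w * (γ t - γ s) =
          (starRingEnd ℂ) w * (γ τ - γ s) + (starRingEnd ℂ) w * (γ t - γ τ) := by ring
      rw [this, Complex.add_re]
      linarith

lemma sign_const {d : ℝ → ℝ} (hd : Continuous d) {X : ℝ} (h0 : ∀ x, 0 < x → x ≤ X → d x ≠ 0)
    (h1 : 0 < d X) : ∀ x, 0 < x → x ≤ X → 0 < d x := by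
  intro x hx hxX
  by_contra hcon
  rw [not_lt] at hcon
  obtain ⟨y, hy, hy0⟩ := intermediate_value_Icc hxX hd.continuousOn (⟨hcon, h1.le⟩ : (0:ℝ) ∈ Icc _ _)
  exact h0 y (by linarith [hy.1]) hy.2 hy0

/-- Two disjoint graphs. -/
lemma exists_wedge {L : ℝ} (hL0 : 0 ≤ L) (hL3 : 3 * L ^ 2 ≤ 1) {p q : ℝ → ℝ} {X : ℝ} (hX : 0 < X)
    (hp : ∀ x y, |p x - p y| ≤ L * |x - y|)
    (hq : ∀ x y, |q x - q y| ≤ L * |x - y|) (p0 : p 0 = 0) (q0 : q 0 = 0)
    (hpq : ∀ x, 0 < x → x ≤ X → p x ≠ q x) :
    ∃ u l : ℝ → ℝ, Wedge L u l X ∧ ((u = p ∧ l = q) ∨ (u = q ∧ l = p)) := by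
  rcases lt_or_gt_of_ne (hpq X hX le_rfl) with h | h
  · have := sign_const (d := fun x => q x - p x) ((cont_of_lip hq).sub (cont_of_lip hp)) (X := X)
      (fun x h0 h1 => sub_ne_zero.2 (hpq x h0 h1).symm) (by linarith)
    exact ⟨q, p, ⟨hL0, hL3, hq, hp, q0, p0, fun x h0 h1 => by have := this x h0 h1; linarith⟩,
      Or.inr ⟨rfl, rfl⟩⟩
  · have := sign_const (d := fun x => p x - q x) ((cont_of_lip hp).sub (cont_of_lip hq)) (X := X)
      (fun x h0 h1 => sub_ne_zero.2 (hpq x h0 h1)) (by linarith)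
    exact ⟨p, q, ⟨hL0, hL3, hp, hq, p0, q0, fun x h0 h1 => by have := this x h0 h1; linarith⟩,
      Or.inl ⟨rfl, rfl⟩⟩

theorem cusp_step {L : ℝ} (hL0 : 0 < L) (hL3 : 3 * L ^ 2 ≤ 1) {γ : ℝ → ℂ} (J : Jor γ) {τ : ℝ}
    {e : ℂ} {δ : ℝ} (he : ‖e‖ = 1) (hδ : 0 < δ)
    (hδ1 : δ ≤ 1 / 4) (C : Cone L γ τ e δ) (hno : ¬ HasSq γ) :
    ∃ m > 0, ∀ ρ > 0, ∃ (a b : ℝ) (h : ℝ → ℂ), τ - δ < a ∧ a < τ ∧ τ < b ∧ b < τ + δ ∧ Jor h ∧
      (∀ t ∈ Icc b (a + 1), h t = γ t) ∧ (∀ t ∈ Icc a b, LG h t) ∧
      (∀ z w : ℂ, w ≠ 0 → (∀ v, Vtx z w v → v ∈ range h) →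
        m ≤ ‖w‖ ∧ ∀ v, Vtx z w v → ∃ c ∈ range γ, ‖v - c‖ ≤ ρ) := by
  have hL1 : L ≤ 3 / 5 := L_le hL0.le hL3
  set ec : ℂ := (starRingEnd ℂ) e with hec
  have hee : e * ec = 1 := by
    rw [hec, Complex.mul_conj, Complex.normSq_eq_norm_sq, he]
    norm_num
  have hee' : ec * e = 1 := by rw [mul_comm]; exact hee
  have hecn : ‖ec‖ = 1 := by rw [hec, Complex.norm_conj, he]
  have cγ := J.cont
  -- the two arcs in coordinates
  obtain ⟨gR, hgR⟩ : ∃ gR : ℝ → ℂ, gR = fun t => ec * (γ (τ + t) - γ τ) := ⟨_, rfl⟩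
  obtain ⟨gL, hgL⟩ : ∃ gL : ℝ → ℂ, gL = fun t => ec * (γ (τ - t) - γ τ) := ⟨_, rfl⟩
  have cR : Continuous gR := by rw [hgR]; fun_prop
  have cL : Continuous gL := by rw [hgL]; fun_prop
  have R0 : gR 0 = 0 := by rw [hgR]; simp
  have L0 : gL 0 = 0 := by rw [hgL]; simp
  have coneR : ∀ s t, 0 ≤ s → s ≤ t → t ≤ δ → |(gR t - gR s).im| ≤ L * (gR t - gR s).re := by
    intro s t h0 h1 h2
    have := C.1 (τ + s) (τ + t) (by linarith) (by linarith) (by linarith)
    have e1 : gR t - gR s = ec * (γ (τ + t) - γ (τ + s)) := by rw [hgR]; ring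
    rw [e1]
    exact this
  have coneL : ∀ s t, 0 ≤ s → s ≤ t → t ≤ δ → |(gL t - gL s).im| ≤ L * (gL t - gL s).re := by
    intro s t h0 h1 h2
    have := C.2 (τ - t) (τ - s) (by linarith) (by linarith) (by linarith)
    have e1 : gL t - gL s = ec * (γ (τ - t) - γ (τ - s)) := by rw [hgL]; ring
    rw [e1]
    exact this
  have ecne : ec ≠ 0 := by
    intro h; rw [h, norm_zero] at hecn; norm_num at hecn
  have strictR : ∀ s t, 0 ≤ s → s < t → t ≤ δ → (gR s).re < (gR t).re := by
    intro s t h0 h1 h2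
    have h3 := coneR s t h0 h1.le h2
    have h4 := abs_nonneg (gR t - gR s).im
    rw [Complex.sub_re] at h3
    have h40 := nonneg_of_mul_nonneg_right (h4.trans h3) hL0
    rcases (show (gR s).re ≤ (gR t).re by linarith).eq_or_lt with h5 | h5
    · exfalso
      rw [h5, sub_self, mul_zero] at h3
      have h6 := abs_nonpos_iff.1 h3
      have h7 : gR t - gR s = 0 := Complex.ext (by rw [Complex.sub_re, h5, sub_self]; rfl)
        (by rw [h6]; rfl)
      have e1 : gR t - gR s = ec * (γ (τ + t) - γ (τ + s)) := by rw [hgR]; ring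
      rw [e1] at h7
      rcases mul_eq_zero.1 h7 with h8 | h8
      · exact ecne h8
      · exact Jor.ne J (x := τ + s) (y := τ + t) (by linarith) (by linarith)
          (sub_eq_zero.1 h8).symm
    · exact h5
  have strictL : ∀ s t, 0 ≤ s → s < t → t ≤ δ → (gL s).re < (gL t).re := by
    intro s t h0 h1 h2
    have h3 := coneL s t h0 h1.le h2
    have h4 := abs_nonneg (gL t - gL s).im
    rw [Complex.sub_re] at h3
    have h40 := nonneg_of_mul_nonneg_right (h4.trans h3) hL0
    rcases (show (gL s).re ≤ (gL t).re by linarith).eq_or_lt with h5 | h5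
    · exfalso
      rw [h5, sub_self, mul_zero] at h3
      have h6 := abs_nonpos_iff.1 h3
      have h7 : gL t - gL s = 0 := Complex.ext (by rw [Complex.sub_re, h5, sub_self]; rfl)
        (by rw [h6]; rfl)
      have e1 : gL t - gL s = ec * (γ (τ - t) - γ (τ - s)) := by rw [hgL]; ring
      rw [e1] at h7
      rcases mul_eq_zero.1 h7 with h8 | h8
      · exact ecne h8
      · exact Jor.ne J (x := τ - t) (y := τ - s) (by linarith) (by linarith)
          (sub_eq_zero.1 h8)
    · exact h5
  obtain ⟨X, hX⟩ : ∃ X : ℝ, X = min (gR δ).re (gL δ).re := ⟨_, rfl⟩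
  have XR : X ≤ (gR δ).re := by rw [hX]; exact min_le_left _ _
  have XL : X ≤ (gL δ).re := by rw [hX]; exact min_le_right _ _
  have Xpos : 0 < X := by
    rw [hX]
    refine lt_min ?_ ?_
    · have := strictR 0 δ le_rfl hδ le_rfl
      rwa [R0] at this
    · have := strictL 0 δ le_rfl hδ le_rfl
      rwa [L0] at this
  obtain ⟨TR, p, hTR, hp, p0, hpR⟩ := arc_graph hL0 cR R0 hδ Xpos XR coneR
  obtain ⟨TL, q, hTL, hq, q0, hqL⟩ := arc_graph hL0 cL L0 hδ Xpos XL coneL
  have TRpos : ∀ x, 0 < x → x ≤ X → 0 < TR x := by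
    intro x h0 h1
    obtain ⟨a1, a2, a3, a4⟩ := hTR x h0.le h1
    rcases a1.eq_or_lt with h | h
    · rw [← h, R0] at a3
      exfalso
      simp at a3
      linarith
    · exact h
  have TLpos : ∀ x, 0 < x → x ≤ X → 0 < TL x := by
    intro x h0 h1
    obtain ⟨a1, a2, a3, a4⟩ := hTL x h0.le h1
    rcases a1.eq_or_lt with h | h
    · rw [← h, L0] at a3
      exfalso
      simp at a3
      linarith
    · exact h
  obtain ⟨P, hP⟩ : ∃ P : ℝ → ℝ → ℂ, P = fun x y => γ τ + e * (⟨x, y⟩ : ℂ) := ⟨_, rfl⟩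
  have Pnorm : ∀ x y, ‖P x y - γ τ‖ = ‖(⟨x, y⟩ : ℂ)‖ := by
    intro x y
    rw [hP]
    simp only [add_sub_cancel_left]
    rw [norm_mul, he, one_mul]
  have Pinj : ∀ x y x' y', P x y = P x' y' → x = x' ∧ y = y' := by
    intro x y x' y' h
    rw [hP] at h
    have ene : e ≠ 0 := by intro h; rw [h, norm_zero] at he; norm_num at he
    have := mul_left_cancel₀ ene (add_left_cancel h)
    exact ⟨congrArg Complex.re this, congrArg Complex.im this⟩
  have PgR : ∀ t, γ (τ + t) = P (gR t).re (gR t).im := by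
    intro t
    rw [hP]
    simp only [Complex.eta]
    rw [hgR]
    simp only
    rw [← mul_assoc, hee]
    ring
  have PgL : ∀ t, γ (τ - t) = P (gL t).re (gL t).im := by
    intro t
    rw [hP]
    simp only [Complex.eta]
    rw [hgL]
    simp only
    rw [← mul_assoc, hee]
    ring
  have hpq : ∀ x, 0 < x → x ≤ X → p x ≠ q x := by
    intro x h0 h1 heq
    obtain ⟨a1, a2, a3, a4⟩ := hTR x h0.le h1
    obtain ⟨b1, b2, b3, b4⟩ := hTL x h0.le h1
    have e1 := PgR (TR x)
    have e2 := PgL (TL x)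
    rw [a3, a4, heq] at e1
    rw [b3, b4] at e2
    exact Jor.ne J (x := τ - TL x) (y := τ + TR x) (by linarith [TRpos x h0 h1])
      (by linarith) (by rw [e1, e2])
  obtain ⟨u, l, W, hul⟩ := exists_wedge hL0.le hL3 Xpos hp hq p0 q0 hpq
  have hPr : ∀ x y, 0 < x → x ≤ X → (y = u x ∨ y = l x) → P x y ∈ range γ := by
    intro x y h0 h1 hy
    have hy' : y = p x ∨ y = q x := by
      rcases hul with ⟨rfl, rfl⟩ | ⟨rfl, rfl⟩
      · exact hy
      · exact hy.symm
    rcases hy' with hy' | hy'
    · obtain ⟨a1, a2, a3, a4⟩ := hTR x h0.le h1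
      exact ⟨τ + TR x, by rw [PgR, a3, a4, hy']⟩
    · obtain ⟨a1, a2, a3, a4⟩ := hTL x h0.le h1
      exact ⟨τ - TL x, by rw [PgL, a3, a4, hy']⟩
  have Padd : ∀ x y A B, P x y + e * (⟨A, B⟩ : ℂ) = P (x + A) (y + B) := by
    intro x y A B
    rw [hP]
    simp only
    rw [add_assoc, ← mul_add]
    rfl
  have IeAB : ∀ A B : ℝ, Complex.I * (e * (⟨A, B⟩ : ℂ)) = e * (⟨-B, A⟩ : ℂ) := by
    intro A B
    rw [← mul_assoc, mul_comm Complex.I e, mul_assoc]
    congr 1
    apply Complex.ext <;> simp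
  have hnosq : NoSq u l X := by
    intro x y a b ha h1 h2 h3 h4 h5 h6 h7 h8 k1 k2 k3 k4
    refine hno ⟨P x y, e * (⟨a, b⟩ : ℂ), ?_, hPr x y h1 h2 k1, ?_, ?_, ?_⟩
    · have ene : e ≠ 0 := by intro h; rw [h, norm_zero] at he; norm_num at he
      refine mul_ne_zero ene ?_
      intro h
      have := congrArg Complex.re h
      simp at this
      linarith
    · rw [Padd]; exact hPr _ _ h3 h4 k2
    · rw [Padd, IeAB, Padd]
      refine hPr _ _ (by linarith) (by linarith) ?_
      rw [show x + a + -b = x + a - b by ring, show y + b + a = y + a + b by ring]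
      exact k3
    · rw [IeAB, Padd]
      refine hPr _ _ (by linarith) (by linarith) ?_
      rw [show x + -b = x - b by ring]
      exact k4
  -- the rest of the curve is far away
  obtain ⟨t0, ht0, hmin⟩ := isCompact_Icc.exists_isMinOn
    (⟨τ + δ, le_rfl, by linarith⟩ : (Icc (τ + δ) (τ + 1 - δ)).Nonempty)
    (f := fun t => ‖γ t - γ τ‖) (by fun_prop)
  have hρ0 : 0 < ‖γ t0 - γ τ‖ := norm_pos_iff.2 (sub_ne_zero.2
    (Jor.ne J (x := τ) (y := t0) (by linarith [ht0.1]) (by linarith [ht0.2])).symm)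
  obtain ⟨m0, hm0⟩ : ∃ m0 : ℝ, m0 = min ‖γ t0 - γ τ‖ (X / 3) := ⟨_, rfl⟩
  have m0pos : 0 < m0 := by rw [hm0]; exact lt_min hρ0 (by linarith)
  have m0far : ∀ t, τ + δ ≤ t → t ≤ τ + 1 - δ → m0 ≤ ‖γ t - γ τ‖ := by
    intro t h1 h2
    have : ‖γ t0 - γ τ‖ ≤ ‖γ t - γ τ‖ := hmin (a := t) ⟨h1, h2⟩
    rw [hm0]
    exact (min_le_left _ _).trans this
  have m0X : m0 ≤ X / 3 := by rw [hm0]; exact min_le_right _ _
  refine ⟨m0 / 8, by linarith, ?_⟩
  intro ρ hρ
  obtain ⟨c, cpos, ccm, clow⟩ := exists_low (w := fun x => u x - l x)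
    ((cont_of_lip W.hu).sub (cont_of_lip W.hl)) (X := X)
    (cm := min (X / 6) (min (ρ / 2) (m0 / 4))) (lt_min (by linarith) (lt_min (by linarith)
      (by linarith))) ((min_le_left _ _).trans (by linarith))
    (by simp only [W.u0, W.l0, sub_self]) (fun x h0 h1 => by have := W.pos x h0 h1; linarith)
  have cX : c ≤ X / 6 := ccm.trans (min_le_left _ _)
  have cρ : c ≤ ρ / 2 := ccm.trans ((min_le_right _ _).trans (min_le_left _ _))
  have cm0 : c ≤ m0 / 4 := ccm.trans ((min_le_right _ _).trans (min_le_right _ _))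
  obtain ⟨a1, a2, a3, a4⟩ := hTR c cpos.le (by linarith)
  obtain ⟨b1, b2, b3, b4⟩ := hTL c cpos.le (by linarith)
  have TRc := TRpos c cpos (by linarith)
  have TLc := TLpos c cpos (by linarith)
  have TRδ : TR c < δ := by
    rcases a2.eq_or_lt with h | h
    · exfalso; rw [h] at a3; linarith
    · exact h
  have TLδ : TL c < δ := by
    rcases b2.eq_or_lt with h | h
    · exfalso; rw [h] at b3; linarith
    · exact h
  have γb : γ (τ + TR c) = P c (p c) := by rw [PgR, a3, a4]
  have γa : γ (τ - TL c) = P c (q c) := by rw [PgL, b3, b4]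
  have hr : p c - q c ≠ 0 := sub_ne_zero.2 (hpq c cpos (by linarith))
  have hba : γ (τ + TR c) - γ (τ - TL c) = e * (⟨0, p c - q c⟩ : ℂ) := by
    rw [γb, γa, hP]
    simp only
    rw [add_sub_add_left_eq_sub, ← mul_sub]
    congr 1
    apply Complex.ext <;> simp
  have hseg : ∀ θ : ℝ, γ (τ - TL c) + (θ : ℂ) * (γ (τ + TR c) - γ (τ - TL c)) =
      P c (q c + θ * (p c - q c)) := by
    intro θ
    rw [hba, γa, ← mul_assoc, mul_comm (θ : ℂ) e, mul_assoc]
    have : (θ : ℂ) * (⟨0, p c - q c⟩ : ℂ) = (⟨0, θ * (p c - q c)⟩ : ℂ) := by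
      apply Complex.ext <;> simp
    rw [this, Padd, add_zero]
  -- points of the segment
  have segbd : ∀ θ : ℝ, 0 ≤ θ → θ ≤ 1 → l c ≤ q c + θ * (p c - q c) ∧
      q c + θ * (p c - q c) ≤ u c := by
    intro θ h0 h1
    have hlu := W.pos c cpos (by linarith)
    rcases hul with ⟨rfl, rfl⟩ | ⟨rfl, rfl⟩
    · constructor <;> nlinarith
    · constructor <;> nlinarith
  have unorm : ∀ y, l c ≤ y → y ≤ u c → ‖P c y - γ τ‖ ≤ 2 * c := by
    intro y h1 h2
    rw [Pnorm]
    have h3 := W.hu c 0
    have h4 := W.hl c 0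
    rw [W.u0, sub_zero, sub_zero, abs_of_pos cpos] at h3
    rw [W.l0, sub_zero, sub_zero, abs_of_pos cpos] at h4
    have h5 := abs_le.1 h3
    have h6 := abs_le.1 h4
    refine (Complex.norm_le_abs_re_add_abs_im _).trans ?_
    simp only
    rw [abs_of_pos cpos]
    have h7 : L * c ≤ c := by nlinarith
    have : |y| ≤ L * c := abs_le.2 ⟨by linarith, by linarith⟩
    linarith
  -- classification of the points of the curve beyond the cut
  have classR : ∀ t, TR c < t → t ≤ δ → c < (gR t).re := by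
    intro t h1 h2
    have := strictR (TR c) t a1 h1 h2
    rwa [a3] at this
  have classL : ∀ t, TL c < t → t ≤ δ → c < (gL t).re := by
    intro t h1 h2
    have := strictL (TL c) t b1 h1 h2
    rwa [b3] at this
  have γper : ∀ t, γ t = γ (t - 1) := fun t => by
    have := J.per (t - 1)
    rw [sub_add_cancel] at this
    exact this
  have tri : ∀ t, τ + TR c < t → t < τ - TL c + 1 →
      (∃ t', TR c < t' ∧ t' ≤ δ ∧ γ t = P (gR t').re (gR t').im) ∨
      (∃ t', TL c < t' ∧ t' ≤ δ ∧ γ t = P (gL t').re (gL t').im) ∨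
      (τ + δ ≤ t ∧ t ≤ τ + 1 - δ) := by
    intro t h1 h2
    rcases le_total t (τ + δ) with h | h
    · left
      refine ⟨t - τ, by linarith, by linarith, ?_⟩
      rw [← PgR, add_sub_cancel]
    · rcases le_total t (τ + 1 - δ) with h' | h'
      · right; right; exact ⟨h, h'⟩
      · right; left
        refine ⟨τ + 1 - t, by linarith, by linarith, ?_⟩
        rw [← PgL, γper]
        congr 1
        ring
  obtain ⟨h, Jh, hseg', hrest⟩ := exists_cut J (a := τ - TL c) (b := τ + TR c) (by linarith)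
    (by linarith) (by
      intro t ht1 ht2 θ hθ0 hθ1 heq
      rw [hseg] at heq
      rcases tri t ht1 ht2 with ⟨t', h1, h2, h3⟩ | ⟨t', h1, h2, h3⟩ | ⟨h1, h2⟩
      · rw [h3] at heq
        have := (Pinj _ _ _ _ heq).1
        have := classR t' h1 h2
        linarith
      · rw [h3] at heq
        have := (Pinj _ _ _ _ heq).1
        have := classL t' h1 h2
        linarith
      · have k1 := m0far t h1 h2
        rw [heq] at k1
        have k2 := segbd θ hθ0 hθ1
        have k3 := unorm _ k2.1 k2.2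
        linarith)
  refine ⟨τ - TL c, τ + TR c, h, by linarith, by linarith, by linarith, by linarith, Jh, hrest,
    ?_, ?_⟩
  · -- the local condition
    have hlen : 0 < τ + TR c - (τ - TL c) := by linarith
    have hdiff : ∀ s t, s ∈ Icc (τ - TL c) (τ + TR c) → t ∈ Icc (τ - TL c) (τ + TR c) →
        h t - h s = ((t - s) / (τ + TR c - (τ - TL c)) : ℝ) * (e * (⟨0, p c - q c⟩ : ℂ)) := by
      intro s t hs ht
      rw [hseg' s hs, hseg' t ht, hba]
      push_cast
      ring
    have hvne : e * (⟨0, p c - q c⟩ : ℂ) ≠ 0 := by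
      have ene : e ≠ 0 := by intro h; rw [h, norm_zero] at he; norm_num at he
      refine mul_ne_zero ene ?_
      intro h
      exact hr (congrArg Complex.im h)
    have hR : 0 < |p c - q c| := abs_pos.2 hr
    have hprev : ∀ s, τ - δ ≤ s → s ≤ τ - TL c → h s = γ s := by
      intro s hs1 hs2
      have := hrest (s + 1) ⟨by linarith, by linarith⟩
      rwa [Jh.per, J.per] at this
    intro t ht
    rcases ht.1.eq_or_lt with hta | hta
    · -- the corner at the left end
      rw [← hta]
      refine LG_of_two (w := e * (⟨-|p c - q c|, p c - q c⟩ : ℂ)) ?_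
        (ε := min (TR c) (δ - TL c)) (lt_min TRc (by linarith)) ?_ ?_
      · have ene : e ≠ 0 := by intro h; rw [h, norm_zero] at he; norm_num at he
        refine mul_ne_zero ene ?_
        intro h
        exact hr (congrArg Complex.im h)
      · intro s t' hs hst ht'
        have hs1 : τ - δ < s := by linarith [min_le_right (TR c) (δ - TL c)]
        rw [hprev s hs1.le (by linarith), hprev t' (by linarith) ht']
        have := C.2 s t' hs1.le hst (by linarith)
        rw [← hec] at this
        rw [map_mul, ← hec, mul_comm ec, mul_assoc]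
        have e1 : ec * (γ t' - γ s) = -(ec * (γ s - γ t')) := by ring
        rw [e1]
        obtain ⟨k, hk⟩ : ∃ k, k = ec * (γ s - γ t') := ⟨_, rfl⟩
        rw [← hk] at this ⊢
        simp only [Complex.mul_re, Complex.neg_re, Complex.neg_im, Complex.conj_re,
          Complex.conj_im]
        have h3 := abs_nonneg k.im
        have h4 : 0 ≤ k.re := nonneg_of_mul_nonneg_right (h3.trans this) hL0
        have h8 : |k.im| ≤ k.re := this.trans (by nlinarith)
        have h5 : |(p c - q c) * k.im| ≤ |p c - q c| * k.re := by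
          rw [abs_mul]; exact mul_le_mul_of_nonneg_left h8 hR.le
        have h6 := abs_le.1 h5
        linarith [h6.1, h6.2]
      · intro s t' hs hst ht'
        have ht2 : t' < τ + TR c := by
          have := min_le_left (TR c) (δ - TL c)
          linarith
        rw [hdiff s t' ⟨hs, by linarith⟩ ⟨by linarith, ht2.le⟩]
        rw [map_mul, ← hec]
        have e1 : ec * (starRingEnd ℂ) (⟨-|p c - q c|, p c - q c⟩ : ℂ) *
            (((t' - s) / (τ + TR c - (τ - TL c)) : ℝ) * (e * (⟨0, p c - q c⟩ : ℂ))) =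
            (ec * e) * (((t' - s) / (τ + TR c - (τ - TL c)) : ℝ) *
              ((starRingEnd ℂ) (⟨-|p c - q c|, p c - q c⟩ : ℂ) * (⟨0, p c - q c⟩ : ℂ))) := by ring
        rw [e1, hee', one_mul, Complex.re_ofReal_mul]
        refine mul_nonneg (div_nonneg (by linarith) hlen.le) ?_
        simp only [Complex.mul_re, Complex.conj_re, Complex.conj_im]
        nlinarith [sq_nonneg (p c - q c)]
    · rcases ht.2.eq_or_lt with htb | htb
      · -- the corner at the right end
        rw [htb]
        refine LG_of_two (w := e * (⟨|p c - q c|, p c - q c⟩ : ℂ)) ?_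
          (ε := min (TL c) (δ - TR c)) (lt_min TLc (by linarith)) ?_ ?_
        · have ene : e ≠ 0 := by intro h; rw [h, norm_zero] at he; norm_num at he
          refine mul_ne_zero ene ?_
          intro h
          exact hr (congrArg Complex.im h)
        · intro s t' hs hst ht'
          have hs1 : τ - TL c < s := by
            have := min_le_left (TL c) (δ - TR c)
            linarith
          rw [hdiff s t' ⟨hs1.le, by linarith⟩ ⟨by linarith, ht'⟩]
          rw [map_mul, ← hec]
          have e1 : ec * (starRingEnd ℂ) (⟨|p c - q c|, p c - q c⟩ : ℂ) *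
              (((t' - s) / (τ + TR c - (τ - TL c)) : ℝ) * (e * (⟨0, p c - q c⟩ : ℂ))) =
              (ec * e) * (((t' - s) / (τ + TR c - (τ - TL c)) : ℝ) *
                ((starRingEnd ℂ) (⟨|p c - q c|, p c - q c⟩ : ℂ) * (⟨0, p c - q c⟩ : ℂ))) := by
            ring
          rw [e1, hee', one_mul, Complex.re_ofReal_mul]
          refine mul_nonneg (div_nonneg (by linarith) hlen.le) ?_
          simp only [Complex.mul_re, Complex.conj_re, Complex.conj_im]
          nlinarith [sq_nonneg (p c - q c)]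
        · intro s t' hs hst ht'
          have ht2 : t' < τ + δ := by
            have := min_le_right (TL c) (δ - TR c)
            linarith
          rw [hrest s ⟨hs, by linarith⟩, hrest t' ⟨by linarith, by linarith⟩]
          have := C.1 s t' (by linarith) hst ht2.le
          rw [← hec] at this
          rw [map_mul, ← hec, mul_comm ec, mul_assoc]
          obtain ⟨k, hk⟩ : ∃ k, k = ec * (γ t' - γ s) := ⟨_, rfl⟩
          rw [← hk] at this ⊢
          simp only [Complex.mul_re, Complex.conj_re, Complex.conj_im]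
          have h3 := abs_nonneg k.im
          have h4 : 0 ≤ k.re := nonneg_of_mul_nonneg_right (h3.trans this) hL0
          have h8 : |k.im| ≤ k.re := this.trans (by nlinarith)
          have h5 : |(p c - q c) * k.im| ≤ |p c - q c| * k.re := by
            rw [abs_mul]; exact mul_le_mul_of_nonneg_left h8 hR.le
          have h6 := abs_le.1 h5
          linarith [h6.1, h6.2]
      · -- inside the segment
        refine LG_of_mono (w := e * (⟨0, p c - q c⟩ : ℂ)) hvne
          (ε := min (t - (τ - TL c)) (τ + TR c - t)) (lt_min (by linarith) (by linarith)) ?_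
        intro s t' hs hst ht'
        have m1 := min_le_left (t - (τ - TL c)) (τ + TR c - t)
        have m2 := min_le_right (t - (τ - TL c)) (τ + TR c - t)
        rw [hdiff s t' ⟨by linarith, by linarith⟩ ⟨by linarith, by linarith⟩]
        obtain ⟨k, hk⟩ : ∃ k, k = e * (⟨0, p c - q c⟩ : ℂ) := ⟨_, rfl⟩
        rw [← hk]
        have e1 : (starRingEnd ℂ) k * (((t' - s) / (τ + TR c - (τ - TL c)) : ℝ) * k) =
            (((t' - s) / (τ + TR c - (τ - TL c)) : ℝ)) * (k * (starRingEnd ℂ) k) := by ring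
        rw [e1, Complex.mul_conj, Complex.re_ofReal_mul, Complex.ofReal_re]
        exact mul_nonneg (div_nonneg (by linarith) hlen.le) (Complex.normSq_nonneg _)
  · -- squares of the new curve
    intro z w hw hv
    -- classification of the points of the new curve
    have hcls : ∀ v ∈ range h, ((∃ x y, v = P x y ∧ OnCut u l c X x y) ∨ m0 ≤ ‖v - γ τ‖) ∧
        (v ∈ range γ ∨ ‖v - γ τ‖ ≤ 2 * c) := by
      rintro v ⟨t, rfl⟩
      -- move the parameter
      obtain ⟨t', ht', hht⟩ : ∃ t' ∈ Ico (τ - TL c) (τ - TL c + 1), h t = h t' := by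
        refine ⟨τ - TL c + Int.fract (t - (τ - TL c)), ⟨?_, ?_⟩, ?_⟩
        · linarith [Int.fract_nonneg (t - (τ - TL c))]
        · linarith [Int.fract_lt_one (t - (τ - TL c))]
        · have hpz : Function.Periodic h 1 := Jh.per
          have := hpz.sub_zsmul_eq (x := t) ⌊t - (τ - TL c)⌋
          rw [← this]
          congr 1
          rw [zsmul_eq_mul, mul_one]
          have := Int.self_sub_floor (t - (τ - TL c))
          linarith
      rw [hht]
      rcases le_or_gt t' (τ + TR c) with htb | htb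
      · have hθ0 : 0 ≤ (t' - (τ - TL c)) / (τ + TR c - (τ - TL c)) :=
          div_nonneg (by linarith [ht'.1]) (by linarith)
        have hθ1 : (t' - (τ - TL c)) / (τ + TR c - (τ - TL c)) ≤ 1 :=
          (div_le_one (by linarith)).2 (by linarith)
        rw [hseg' t' ⟨ht'.1, htb⟩, hseg]
        have k := segbd _ hθ0 hθ1
        refine ⟨Or.inl ⟨_, _, rfl, le_rfl, by linarith, ?_⟩, Or.inr (unorm _ k.1 k.2)⟩
        rcases k.1.eq_or_lt with h1 | h1
        · right; left; exact h1.symm
        · rcases k.2.eq_or_lt with h2 | h2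
          · left; exact h2
          · right; right; exact ⟨rfl, h1, h2⟩
      · rw [hrest t' ⟨htb.le, ht'.2.le⟩]
        refine ⟨?_, Or.inl ⟨_, rfl⟩⟩
        rcases tri t' htb ht'.2 with ⟨s, h1, h2, h3⟩ | ⟨s, h1, h2, h3⟩ | ⟨h1, h2⟩
        · rw [h3]
          have k1 := classR s h1 h2
          rcases le_or_gt (3 * (gR s).re) X with hx | hx
          · left
            refine ⟨_, _, rfl, k1.le, hx, ?_⟩
            have := hpR s (by linarith) h2 (by linarith)
            rcases hul with ⟨rfl, rfl⟩ | ⟨rfl, rfl⟩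
            · left; exact this
            · right; left; exact this
          · right
            rw [Pnorm]
            refine le_trans ?_ (Complex.abs_re_le_norm _)
            simp only
            rw [abs_of_pos (by linarith)]
            linarith
        · rw [h3]
          have k1 := classL s h1 h2
          rcases le_or_gt (3 * (gL s).re) X with hx | hx
          · left
            refine ⟨_, _, rfl, k1.le, hx, ?_⟩
            have := hqL s (by linarith) h2 (by linarith)
            rcases hul with ⟨rfl, rfl⟩ | ⟨rfl, rfl⟩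
            · right; left; exact this
            · left; exact this
          · right
            rw [Pnorm]
            refine le_trans ?_ (Complex.abs_re_le_norm _)
            simp only
            rw [abs_of_pos (by linarith)]
            linarith
        · right
          exact m0far t' h1 h2
    refine ⟨?_, ?_⟩
    swap
    · intro v hvv
      rcases (hcls v (hv v hvv)).2 with h1 | h1
      · exact ⟨v, h1, by rw [sub_self, norm_zero]; exact hρ.le⟩
      · exact ⟨γ τ, ⟨τ, rfl⟩, by linarith⟩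
    -- some vertex is not on the old curve
    have hout : ∃ v, Vtx z w v ∧ v ∉ range γ := by
      by_contra hcon
      push Not at hcon
      exact hno ⟨z, w, hw, hcon _ (Or.inl rfl), hcon _ (Or.inr (Or.inl rfl)),
        hcon _ (Or.inr (Or.inr (Or.inl rfl))), hcon _ (Or.inr (Or.inr (Or.inr rfl)))⟩
    obtain ⟨v, hvv, hvγ⟩ := hout
    have hvc : ‖v - γ τ‖ ≤ 2 * c := by
      rcases (hcls v (hv v hvv)).2 with h1 | h1
      · exact absurd h1 hvγ
      · exact h1
    by_cases hfar : ∃ v', Vtx z w v' ∧ m0 ≤ ‖v' - γ τ‖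
    · obtain ⟨v', hv', hm⟩ := hfar
      have k1 := hvv.norm_le
      have k2 := hv'.norm_le
      have k3 : ‖v' - γ τ‖ ≤ ‖v' - z‖ + ‖v - z‖ + ‖v - γ τ‖ := by
        have : v' - γ τ = (v' - z) - (v - z) + (v - γ τ) := by ring
        rw [this]
        exact (norm_add_le _ _).trans (by linarith [norm_sub_le (v' - z) (v - z)])
      linarith
    · exfalso
      push Not at hfar
      have htip : ∀ v', Vtx z w v' → ∃ x y, v' = P x y ∧ OnCut u l c X x y := by
        intro v' hv'
        rcases (hcls v' (hv v' hv')).1 with h1 | h1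
        · exact h1
        · exact absurd h1 (not_le.2 (hfar v' hv'))
      obtain ⟨x, y, hz, hxy⟩ := htip z (Or.inl rfl)
      obtain ⟨A, B, hAB⟩ : ∃ A B : ℝ, w = e * (⟨A, B⟩ : ℂ) := by
        refine ⟨(ec * w).re, (ec * w).im, ?_⟩
        rw [Complex.eta, ← mul_assoc, hee, one_mul]
      have h2 : OnCut u l c X (x + A) (y + B) := by
        obtain ⟨x', y', hz', hxy'⟩ := htip (z + w) (Or.inr (Or.inl rfl))
        rw [hz, hAB, Padd] at hz'
        obtain ⟨e1, e2⟩ := Pinj _ _ _ _ hz'
        rw [e1, e2]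
        exact hxy'
      have h3 : OnCut u l c X (x + A - B) (y + A + B) := by
        obtain ⟨x', y', hz', hxy'⟩ := htip (z + w + Complex.I * w) (Or.inr (Or.inr (Or.inl rfl)))
        rw [hz, hAB, IeAB, Padd, Padd] at hz'
        obtain ⟨e1, e2⟩ := Pinj _ _ _ _ hz'
        rw [show x + A - B = x + A + -B by ring, show y + A + B = y + B + A by ring, e1, e2]
        exact hxy'
      have h4 : OnCut u l c X (x - B) (y + A) := by
        obtain ⟨x', y', hz', hxy'⟩ := htip (z + Complex.I * w) (Or.inr (Or.inr (Or.inr rfl)))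
        rw [hz, hAB, IeAB, Padd] at hz'
        obtain ⟨e1, e2⟩ := Pinj _ _ _ _ hz'
        rw [show x - B = x + -B by ring, e1, e2]
        exact hxy'
      have hne : A ≠ 0 ∨ B ≠ 0 := by
        by_contra hcon
        push Not at hcon
        apply hw
        rw [hAB, hcon.1, hcon.2]
        have : (⟨0, 0⟩ : ℂ) = 0 := rfl
        rw [this, mul_zero]
      obtain ⟨x', y', a', b', ha', hb', q1, q2, q3, q4⟩ := relabel (OnCut u l c X) hne hxy h2 h3 h4
      have key := W.excl hnosq cpos (fun a ha1 ha2 ha3 => by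
        have := clow (c + a) (by linarith) (by linarith)
        linarith) ha' hb' q1 q2 q3 q4
      exact hnosq x' y' a' b' ha' (by linarith [q1.1]) (by linarith [q1.2.1, q1.1])
        (by linarith [q2.1]) (by linarith [q2.2.1, q2.1]) (by linarith [q3.1])
        (by linarith [q3.2.1, q3.1]) (by linarith [q4.1]) (by linarith [q4.2.1, q4.1])
        key.1 key.2.1 key.2.2.1 key.2.2.2

end Q169.Cusp
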