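import Mathlib

/-!
Squares with two adjacent vertices on the lower and a third one on the upper of two Lipschitz graphs
that meet in a point: if there is no square with all vertices on the two graphs, then the fourth
vertex is never below the upper graph.
-/

set_option autoImplicit false

namespace Q169.Cusp

open Set Filter Topology MeasureTheory

/-- A function whose increments are bounded by the square of the step is nonincreasing. -/
lemma le_of_quadratic {f : ℝ → ℝ} {α β C : ℝ} (hαβ : α ≤ β)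
    (h : ∀ s s', α ≤ s → s ≤ s' → s' ≤ β → f s' - f s ≤ C * (s' - s) ^ 2) : f β ≤ f α := by
  have key : ∀ n : ℕ, 0 < n → f β - f α ≤ C * (β - α) ^ 2 / n := by
    intro n hn
    have hn' : (0:ℝ) < n := by exact_mod_cast hn
    have hstep : ∀ k : ℕ, k ≤ n →
        f (α + k * ((β - α) / n)) - f α ≤ k * (C * ((β - α) / n) ^ 2) := by
      intro k
      induction k with
      | zero => intro _; simp
      | succ k ih =>
        intro hk
        have h1 := ih (by omega)
        have hk' : ((k:ℝ) + 1) ≤ n := by exact_mod_cast hk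
        have hd : 0 ≤ (β - α) / n := div_nonneg (by linarith) hn'.le
        have h2 := h (α + k * ((β - α) / n)) (α + (k + 1 : ℝ) * ((β - α) / n))
          (by have : 0 ≤ (k:ℝ) * ((β - α) / n) := by positivity
              linarith)
          (by nlinarith)
          (by
            have : ((k:ℝ) + 1) * ((β - α) / n) ≤ n * ((β - α) / n) :=
              mul_le_mul_of_nonneg_right hk' hd
            rw [mul_div_cancel₀ _ hn'.ne'] at this
            linarith)
        have e : (α + (k + 1 : ℝ) * ((β - α) / n)) - (α + k * ((β - α) / n)) = (β - α) / n := by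
          ring
        rw [e] at h2
        push_cast
        have : ((k:ℝ) + 1) * (C * ((β - α) / n) ^ 2) =
            k * (C * ((β - α) / n) ^ 2) + C * ((β - α) / n) ^ 2 := by ring
        rw [this]
        linarith
    have := hstep n le_rfl
    rw [mul_div_cancel₀ _ hn'.ne'] at this
    have e2 : α + (β - α) = β := by ring
    rw [e2] at this
    refine this.trans (le_of_eq ?_)
    field_simp
  have hlim : Tendsto (fun n : ℕ => C * (β - α) ^ 2 / (n : ℝ)) atTop (𝓝 0) :=
    tendsto_const_div_atTop_nhds_zero_nat _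
  have := ge_of_tendsto hlim (Filter.eventually_atTop.2 ⟨1, fun n hn => key n (by omega)⟩)
  linarith

lemma cont_of_lip {L : ℝ} {f : ℝ → ℝ} (hf : ∀ x y, |f x - f y| ≤ L * |x - y|) :
    Continuous f := by
  have : LipschitzWith (Real.toNNReal L) f := by
    refine LipschitzWith.of_dist_le_mul fun x y => ?_
    rw [Real.dist_eq, Real.dist_eq]
    exact (hf x y).trans (mul_le_mul_of_nonneg_right (Real.le_coe_toNNReal L) (abs_nonneg _))
  exact this.continuous

/-- The primitive of a Lipschitz function. -/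
lemma prim_quadratic {L : ℝ} {f : ℝ → ℝ} (hf : ∀ x y, |f x - f y| ≤ L * |x - y|) (x y : ℝ) :
    |(∫ t in (0:ℝ)..y, f t) - (∫ t in (0:ℝ)..x, f t) - f x * (y - x)| ≤ L * (y - x) ^ 2 / 2 := by
  have hc : Continuous f := cont_of_lip hf
  have e0 : (∫ t in (0:ℝ)..y, f t) - (∫ t in (0:ℝ)..x, f t) = ∫ t in x..y, f t := by
    rw [intervalIntegral.integral_interval_sub_left (hc.intervalIntegrable _ _)
      (hc.intervalIntegrable _ _)]
  have e1 : (∫ t in x..y, f t) - f x * (y - x) = ∫ t in x..y, (f t - f x) := by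
    rw [intervalIntegral.integral_sub (hc.intervalIntegrable _ _)
      (intervalIntegrable_const)]
    simp [mul_comm]
  rw [e0, e1]
  rcases le_total x y with h | h
  · have h1 : ‖∫ t in x..y, (f t - f x)‖ ≤ ∫ t in x..y, L * (t - x) := by
      refine intervalIntegral.norm_integral_le_of_norm_le h ?_ ?_
      · refine Filter.Eventually.of_forall fun t ht => ?_
        rw [Real.norm_eq_abs]
        refine (hf t x).trans ?_
        rw [abs_of_nonneg (by linarith [ht.1] : 0 ≤ t - x)]
      · exact (by fun_prop : Continuous fun t : ℝ => L * (t - x)).intervalIntegrable _ _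
    rw [Real.norm_eq_abs] at h1
    refine h1.trans (le_of_eq ?_)
    rw [intervalIntegral.integral_const_mul, intervalIntegral.integral_sub
      (by exact (continuous_id).intervalIntegrable _ _) (intervalIntegrable_const)]
    simp only [integral_id, intervalIntegral.integral_const, smul_eq_mul]
    ring
  · have h1 : ‖∫ t in y..x, (f t - f x)‖ ≤ ∫ t in y..x, L * (x - t) := by
      refine intervalIntegral.norm_integral_le_of_norm_le h ?_ ?_
      · refine Filter.Eventually.of_forall fun t ht => ?_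
        rw [Real.norm_eq_abs]
        refine (hf t x).trans ?_
        rw [abs_sub_comm, abs_of_nonneg (by linarith [ht.2] : 0 ≤ x - t)]
      · exact (by fun_prop : Continuous fun t : ℝ => L * (x - t)).intervalIntegrable _ _
    rw [intervalIntegral.integral_symm, abs_neg]
    rw [Real.norm_eq_abs] at h1
    refine h1.trans (le_of_eq ?_)
    rw [intervalIntegral.integral_const_mul, intervalIntegral.integral_sub
      (intervalIntegrable_const) (by exact (continuous_id).intervalIntegrable _ _)]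
    simp only [integral_id, intervalIntegral.integral_const, smul_eq_mul]
    ring

/-- Two Lipschitz graphs that meet at the origin. The graphs of `u`, `l` have slopes of at most
30 degrees: `3 L² ≤ 1`. -/
structure Wedge (L : ℝ) (u l : ℝ → ℝ) (X : ℝ) : Prop where
  L0 : 0 ≤ L
  L3 : 3 * L ^ 2 ≤ 1
  hu : ∀ x y, |u x - u y| ≤ L * |x - y|
  hl : ∀ x y, |l x - l y| ≤ L * |x - y|
  u0 : u 0 = 0
  l0 : l 0 = 0
  pos : ∀ x, 0 < x → x ≤ X → l x < u x

/-- The height of the third vertex above the upper graph. -/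
def G (u l : ℝ → ℝ) (t a : ℝ) : ℝ := l t + a - u (t - (l t - l (t - a)))

variable {L : ℝ} {u l : ℝ → ℝ}

lemma L_le (h0 : 0 ≤ L) (h : 3 * L ^ 2 ≤ 1) : L ≤ 3 / 5 := by nlinarith

lemma G_mono (hL0 : 0 ≤ L) (hu : ∀ x y, |u x - u y| ≤ L * |x - y|)
    (hl : ∀ x y, |l x - l y| ≤ L * |x - y|) (t : ℝ) {a a' : ℝ} (h : a ≤ a') :
    (1 - L ^ 2) * (a' - a) ≤ G u l t a' - G u l t a := by
  unfold G
  have h1 := hl (t - a') (t - a)
  have e1 : |t - a' - (t - a)| = a' - a := by
    rw [show t - a' - (t - a) = -(a' - a) by ring, abs_neg, abs_of_nonneg (by linarith)]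
  rw [e1] at h1
  have h2 := abs_le.1 (hu (t - (l t - l (t - a'))) (t - (l t - l (t - a))))
  have e2 : |t - (l t - l (t - a')) - (t - (l t - l (t - a)))| ≤ L * (a' - a) := by
    rw [show t - (l t - l (t - a')) - (t - (l t - l (t - a))) = l (t - a') - l (t - a) by ring]
    exact h1
  have h3 := mul_le_mul_of_nonneg_left e2 hL0
  nlinarith [h2.1, h2.2]

lemma G_base (hL1 : L ≤ 3 / 5) (hu : ∀ x y, |u x - u y| ≤ L * |x - y|)
    (hl : ∀ x y, |l x - l y| ≤ L * |x - y|) (t t' a : ℝ) :
    |G u l t' a - G u l t a| ≤ 48 / 25 * |t' - t| := by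
  unfold G
  have d0 := abs_nonneg (t' - t)
  have h1 := abs_le.1 (hl (t' - a) (t - a))
  have e1 : |t' - a - (t - a)| = |t' - t| := by
    rw [show t' - a - (t - a) = t' - t by ring]
  rw [e1] at h1
  have h0 := abs_le.1 (hl t' t)
  have h2 := abs_le.1 (hu (t' - (l t' - l (t' - a))) (t - (l t - l (t - a))))
  have e3 := abs_le.1 (le_refl |t' - t|)
  have hLd : L * |t' - t| ≤ 3 / 5 * |t' - t| := mul_le_mul_of_nonneg_right hL1 d0
  have e2 : |t' - (l t' - l (t' - a)) - (t - (l t - l (t - a)))| ≤ 11 / 5 * |t' - t| := by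
    rw [abs_le]
    constructor <;> linarith [h1.1, h1.2, h0.1, h0.2, e3.1, e3.2]
  have e4 : L * |t' - (l t' - l (t' - a)) - (t - (l t - l (t - a)))| ≤
      3 / 5 * (11 / 5 * |t' - t|) :=
    mul_le_mul hL1 e2 (abs_nonneg _) (by norm_num)
  rw [abs_le]
  constructor <;> linarith [h1.1, h1.2, h2.1, h2.2, h0.1, h0.2]

lemma key_identity (Y A B A' B' δ H v w : ℝ) (hv : v = Y + B + A) (hw : w = Y + A + H) :
    Y * (δ - (A' - A)) - (Y + B) * δ + v * (δ - (B' - B))
      - w * (δ - (B' - B) - (A' - A)) - (A' ^ 2 - B' ^ 2) / 2 + (A ^ 2 - B ^ 2) / 2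
      = - H * (δ - (B' - B) - (A' - A)) - (A' - A) ^ 2 / 2 + (B' - B) ^ 2 / 2 := by
  subst hv hw
  ring

lemma sq_le_of_abs {x k d : ℝ} (h : |x| ≤ k * d) : x ^ 2 ≤ k ^ 2 * d ^ 2 := by
  rw [← mul_pow, ← sq_abs]
  exact pow_le_pow_left₀ (abs_nonneg _) h 2

lemma bracket {q r s : ℝ} (hL0 : 0 ≤ L) (hL : 3 * L ^ 2 ≤ 1) (hq : |q| ≤ L) (hr : |r| ≤ L)
    (hs : |s| ≤ L) : 0 ≤ (1 - q) * (1 + r) + s * (q + r) := by
  have hL1 := L_le hL0 hL
  have q1 := abs_le.1 hq
  have r1 := abs_le.1 hr
  have s1 := abs_le.1 hs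
  rcases le_total 0 (q + r) with h | h
  · have h1 : -L * (q + r) ≤ s * (q + r) := mul_le_mul_of_nonneg_right s1.1 h
    have h2 : 0 ≤ (L - q) * (1 + r + L) := mul_nonneg (by linarith) (by linarith)
    rcases le_total 0 (1 - 2 * L) with h3 | h3
    · have h4 : 0 ≤ (r + L) * (1 - 2 * L) := mul_nonneg (by linarith) h3
      nlinarith [sq_nonneg (1 - L)]
    · have h4 : 0 ≤ (L - r) * (2 * L - 1) := mul_nonneg (by linarith) (by linarith)
      nlinarith
  · have h1 : L * (q + r) ≤ s * (q + r) := mul_le_mul_of_nonpos_right s1.2 h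
    have h2 : 0 ≤ (r + L) * (1 - q + L) := mul_nonneg (by linarith) (by linarith)
    rcases le_total 0 (1 - 2 * L) with h3 | h3
    · have h4 : 0 ≤ (L - q) * (1 - 2 * L) := mul_nonneg (by linarith) h3
      nlinarith [sq_nonneg (1 - L)]
    · have h4 : 0 ≤ (q + L) * (2 * L - 1) := mul_nonneg (by linarith) (by linarith)
      nlinarith

/-- The chord slope. -/
lemma exists_slope {f : ℝ → ℝ} (hL0 : 0 ≤ L) (hf : ∀ x y, |f x - f y| ≤ L * |x - y|) (x y : ℝ) :
    ∃ q, |q| ≤ L ∧ f y - f x = q * (y - x) := by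
  rcases eq_or_ne x y with h | h
  · exact ⟨0, by rwa [abs_zero], by rw [h]; ring⟩
  · have h1 : y - x ≠ 0 := sub_ne_zero.2 h.symm
    refine ⟨(f y - f x) / (y - x), ?_, by rw [div_mul_cancel₀ _ h1]⟩
    rw [abs_div, div_le_iff₀ (abs_pos.2 h1)]
    exact hf y x

/-- No real square: `(t, l t)` is the right end of the lower side. -/
def NoLow (u l : ℝ → ℝ) (X : ℝ) : Prop := ∀ t a, 0 < a → t ≤ X → 0 < t - a →
  0 < t - (l t - l (t - a)) - a → t - (l t - l (t - a)) ≤ X →
  u (t - (l t - l (t - a))) = l t + a → u (t - (l t - l (t - a)) - a) ≠ l (t - a) + a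

theorem Wedge.natural {X : ℝ} (W : Wedge L u l X) (hno : NoLow u l X)
    {t a : ℝ} (ht : 0 < t) (htX : 3 * t ≤ X)
    (hta : u (t - (l t - l (t - a))) = l t + a) (hBL : 0 < t - a)
    (hTL : 0 < t - (l t - l (t - a)) - a) :
    u (t - (l t - l (t - a)) - a) ≤ l (t - a) + a := by
  have hL0 := W.L0
  have hL1 := L_le W.L0 W.L3
  have hu := W.hu
  have hl := W.hl
  have hLsq : 0 < 1 - L ^ 2 := by nlinarith
  have cu : Continuous u := cont_of_lip hu
  have cl : Continuous l := cont_of_lip hl
  have hG0 : ∀ t, G u l t 0 = l t - u t := by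
    intro t
    unfold G
    have : t - (l t - l (t - 0)) = t := by rw [sub_zero]; ring
    rw [this, add_zero]
  -- the root
  have hex : ∀ t, ∃ a, 0 ≤ t → t ≤ X → 0 ≤ a ∧ G u l t a = 0 := by
    intro t
    by_cases hs0 : 0 ≤ t ∧ t ≤ X
    · have hus : l t ≤ u t := by
        rcases hs0.1.eq_or_lt with h | h
        · rw [← h, W.u0, W.l0]
        · exact (W.pos t h hs0.2).le
      have hA : 0 ≤ (u t - l t) / (1 - L ^ 2) := div_nonneg (by linarith) hLsq.le
      have hGA : 0 ≤ G u l t ((u t - l t) / (1 - L ^ 2)) := by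
        have h1 := G_mono hL0 hu hl t (a := 0) (a' := (u t - l t) / (1 - L ^ 2)) hA
        rw [hG0, sub_zero, mul_div_cancel₀ _ hLsq.ne'] at h1
        linarith
      have hcont : Continuous (G u l t) := by
        unfold G
        fun_prop
      obtain ⟨a, ha, h⟩ := intermediate_value_Icc hA
        hcont.continuousOn (⟨by rw [hG0]; linarith, hGA⟩ : (0:ℝ) ∈ Icc _ _)
      exact ⟨a, fun _ _ => ⟨ha.1, h⟩⟩
    · exact ⟨0, fun h1 h2 => absurd ⟨h1, h2⟩ hs0⟩
  choose α hα using hex
  have huniq : ∀ t a a', G u l t a = 0 → G u l t a' = 0 → a = a' := by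
    intro t a a' h h'
    rcases le_total a a' with hle | hle
    · have := G_mono hL0 hu hl t hle
      rw [h, h'] at this
      nlinarith
    · have := G_mono hL0 hu hl t hle
      rw [h, h'] at this
      nlinarith
  have hLip : ∀ s s', 0 ≤ s → s ≤ X → 0 ≤ s' → s' ≤ X → |α s' - α s| ≤ 3 * |s' - s| := by
    intro s s' h0 h1 h0' h1'
    have e1 := (hα s h0 h1).2
    have e2 := (hα s' h0' h1').2
    have g := abs_le.1 (G_base hL1 hu hl s s' (α s))
    rw [e1] at g
    have hk : (16:ℝ) / 25 ≤ 1 - L ^ 2 := by nlinarith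
    rcases le_total (α s) (α s') with hle | hle
    · have := G_mono hL0 hu hl s' hle
      rw [e2] at this
      have h5 : 16 / 25 * (α s' - α s) ≤ (1 - L ^ 2) * (α s' - α s) :=
        mul_le_mul_of_nonneg_right hk (by linarith)
      rw [abs_of_nonneg (by linarith)]
      linarith [g.1]
    · have := G_mono hL0 hu hl s' hle
      rw [e2] at this
      have h5 : 16 / 25 * (α s - α s') ≤ (1 - L ^ 2) * (α s - α s') :=
        mul_le_mul_of_nonneg_right hk (by linarith)
      rw [abs_of_nonpos (by linarith)]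
      linarith [g.2]
  have hX0 : 0 ≤ X := by linarith
  have hα0 : α 0 = 0 := by
    refine huniq 0 _ _ (hα 0 le_rfl hX0).2 ?_
    rw [hG0, W.u0, W.l0, sub_zero]
  have hαle : ∀ s, 0 ≤ s → s ≤ X → α s ≤ 3 * s := by
    intro s h0 h1
    have := hLip 0 s le_rfl hX0 h0 h1
    rw [hα0, sub_zero, sub_zero, abs_of_nonneg h0] at this
    exact (le_abs_self _).trans this
  obtain ⟨b, hb⟩ : ∃ b : ℝ → ℝ, ∀ t, b t = l t - l (t - α t) := ⟨_, fun t => rfl⟩
  have hbabs : ∀ s, 0 ≤ s → s ≤ X → |b s| ≤ L * α s := by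
    intro s h0 h1
    have := hl s (s - α s)
    rw [show s - (s - α s) = α s by ring, abs_of_nonneg (hα s h0 h1).1, ← hb] at this
    exact this
  have hbabs' : ∀ s, 0 ≤ s → s ≤ X → |b s| ≤ 9 / 5 * s := by
    intro s h0 h1
    refine (hbabs s h0 h1).trans ?_
    have h2 := hαle s h0 h1
    have h3 := (hα s h0 h1).1
    nlinarith
  have hGα : ∀ s, 0 ≤ s → s ≤ X → u (s - b s) = l s + α s := by
    intro s h0 h1
    have := (hα s h0 h1).2
    unfold G at this
    rw [← hb] at this
    linarith
  have hαpos : ∀ s, 0 < s → s ≤ X → 0 < α s := by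
    intro s h0 h1
    rcases (hα s h0.le h1).1.eq_or_lt with h | h
    · exfalso
      have e := (hα s h0.le h1).2
      rw [← h, hG0] at e
      have := W.pos s h0 h1
      linarith
    · exact h
  have hlb : ∀ s, l (s - α s) = l s - b s := fun s => by rw [hb]; ring
  -- the sign function
  obtain ⟨H, hH⟩ : ∃ H : ℝ → ℝ, ∀ t, H t = u (t - b t - α t) - (l (t - α t) + α t) :=
    ⟨_, fun t => rfl⟩
  have cα : ContinuousOn α (Icc 0 X) := by
    have : LipschitzOnWith 3 α (Icc 0 X) := LipschitzOnWith.of_dist_le_mul fun x hx y hy => by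
      rw [Real.dist_eq, Real.dist_eq]; simpa using hLip y x hy.1 hy.2 hx.1 hx.2
    exact this.continuousOn
  have cb : ContinuousOn b (Icc 0 X) := by
    have : b = fun t => l t - l (t - α t) := funext hb
    rw [this]
    exact cl.continuousOn.sub (cl.comp_continuousOn (continuousOn_id.sub cα))
  have cH : ContinuousOn H (Icc 0 X) := by
    have : H = fun t => u (t - b t - α t) - (l (t - α t) + α t) := funext hH
    rw [this]
    exact (cu.comp_continuousOn ((continuousOn_id.sub cb).sub cα)).sub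
      ((cl.comp_continuousOn (continuousOn_id.sub cα)).add cα)
  have hX' : t ≤ X := by linarith
  have ea : a = α t := by
    refine huniq t _ _ ?_ (hα t ht.le hX').2
    unfold G
    linarith
  rw [ea] at hBL hTL ⊢
  rw [← hb] at hTL ⊢
  by_contra hcon
  rw [not_le] at hcon
  -- all squares of the family up to this one are of the same kind
  have hgood : ∀ s, 0 < s → s ≤ t → 0 < s - α s ∧ 0 < s - b s - α s ∧ 0 < H s := by
    intro s h0 h1
    obtain ⟨M, hM⟩ : ∃ M : ℝ → ℝ, ∀ s, M s = min (s - α s) (min (s - b s - α s) (H s)) :=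
      ⟨_, fun s => rfl⟩
    have cM : ContinuousOn M (Icc 0 X) := by
      have : M = fun s => min (s - α s) (min (s - b s - α s) (H s)) := funext hM
      rw [this]
      exact (continuousOn_id.sub cα).inf (((continuousOn_id.sub cb).sub cα).inf cH)
    have hMt : 0 < M t := by
      rw [hM]
      exact lt_min hBL (lt_min hTL (by rw [hH]; linarith))
    have hMs : 0 < M s := by
      by_contra hneg
      rw [not_lt] at hneg
      obtain ⟨r, hr, hr0⟩ := intermediate_value_Icc h1
        (cM.mono (Icc_subset_Icc h0.le hX')) (⟨hneg, hMt.le⟩ : (0:ℝ) ∈ Icc _ _)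
      have r0 : 0 < r := by linarith [hr.1]
      have rX : r ≤ X := by linarith [hr.2]
      rw [hM] at hr0
      have m1 : 0 ≤ r - α r := by rw [← hr0]; exact min_le_left _ _
      have m2 : 0 ≤ r - b r - α r := by
        rw [← hr0]; exact (min_le_right _ _).trans (min_le_left _ _)
      have m3 : 0 ≤ H r := by rw [← hr0]; exact (min_le_right _ _).trans (min_le_right _ _)
      have αr := hαpos r r0 rX
      have br := hbabs r r0.le rX
      have br' := abs_le.1 br
      have hLα : L * α r < α r := by nlinarith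
      have hLLα : L * (L * α r) < α r := by nlinarith
      have p1 : 0 < r - α r := by
        rcases m1.eq_or_lt with h | h
        · exfalso
          rw [hH, ← h, W.l0, zero_add] at m3
          have h4 := hu (r - b r - α r) 0
          have e4 : r - b r - α r = - b r := by linarith
          rw [e4, W.u0, sub_zero, sub_zero, abs_neg] at h4
          rw [e4] at m3
          have h5 := le_abs_self (u (- b r))
          have h6 : L * |b r| ≤ L * (L * α r) := mul_le_mul_of_nonneg_left br hL0
          linarith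
        · exact h
      have p2 : 0 < r - b r - α r := by
        rcases m2.eq_or_lt with h | h
        · exfalso
          rw [hH, ← h, W.u0] at m3
          have h4 := hl (r - α r) 0
          rw [W.l0, sub_zero, sub_zero] at h4
          have e4 : r - α r = b r := by linarith
          rw [e4] at h4 m3
          have h5 := neg_abs_le (l (b r))
          have h6 : L * |b r| ≤ L * (L * α r) := mul_le_mul_of_nonneg_left br hL0
          linarith
        · exact h
      have p3 : H r = 0 := by
        rcases m3.eq_or_lt with h | h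
        · exact h.symm
        · exfalso
          have : 0 < min (r - α r) (min (r - b r - α r) (H r)) := lt_min p1 (lt_min p2 h)
          linarith
      have b9 := abs_le.1 (hbabs' r r0.le rX)
      refine hno r (α r) αr rX p1 (by rw [← hb]; exact p2) (by rw [← hb]; linarith [hr.2])
        (by rw [← hb]; exact hGα r r0.le rX) ?_
      rw [← hb]
      rw [hH] at p3
      linarith
    rw [hM] at hMs
    exact ⟨lt_of_lt_of_le hMs (min_le_left _ _),
      lt_of_lt_of_le hMs ((min_le_right _ _).trans (min_le_left _ _)),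
      lt_of_lt_of_le hMs ((min_le_right _ _).trans (min_le_right _ _))⟩
  have hpos : ∀ s, 0 ≤ s → s ≤ t → 0 ≤ H s := by
    intro s hs0 hs1
    rcases hs0.eq_or_lt with h | h
    · rw [hH, ← h, hb, hα0]
      simp only [add_zero, sub_self, W.u0, W.l0]
      exact le_rfl
    · exact (hgood s h hs1).2.2.le
  obtain ⟨Lp, hLp⟩ : ∃ Lp : ℝ → ℝ, Lp = fun y => ∫ t in (0:ℝ)..y, l t := ⟨_, rfl⟩
  obtain ⟨U, hU⟩ : ∃ U : ℝ → ℝ, U = fun y => ∫ t in (0:ℝ)..y, u t := ⟨_, rfl⟩
  have qL : ∀ x y, |Lp y - Lp x - l x * (y - x)| ≤ L * (y - x) ^ 2 / 2 := by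
    intro x y
    rw [hLp]
    exact prim_quadratic hl x y
  have qU : ∀ x y, |U y - U x - u x * (y - x)| ≤ L * (y - x) ^ 2 / 2 := by
    intro x y
    rw [hU]
    exact prim_quadratic hu x y
  have qL' : ∀ x y, |Lp y - Lp x - l x * (y - x)| ≤ (y - x) ^ 2 := by
    intro x y
    refine (qL x y).trans ?_
    nlinarith [sq_nonneg (y - x)]
  have qU' : ∀ x y, |U y - U x - u x * (y - x)| ≤ (y - x) ^ 2 := by
    intro x y
    refine (qU x y).trans ?_
    nlinarith [sq_nonneg (y - x)]
  obtain ⟨Φ, hΦ⟩ : ∃ Φ : ℝ → ℝ, ∀ s, Φ s = Lp (s - α s) - Lp s + U (s - b s) - U (s - b s - α s)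
    - ((α s) ^ 2 - (b s) ^ 2) / 2 := ⟨_, fun s => rfl⟩
  have hb0 : b 0 = 0 := by rw [hb, hα0, sub_zero, sub_self]
  have hΦ0 : Φ 0 = 0 := by
    rw [hΦ, hα0, hb0]
    simp only [sub_self]
    ring
  have hΦle : Φ t ≤ Φ 0 := by
    refine le_of_quadratic (C := 200) ht.le ?_
    intro s s' hs0 hss hs1
    have x0 : s ≤ X := by linarith
    have x0' : 0 ≤ s' := by linarith
    have x1' : s' ≤ X := by linarith
    obtain ⟨δ, hδ⟩ : ∃ δ, δ = s' - s := ⟨_, rfl⟩
    have δ0 : 0 ≤ δ := by linarith
    have dA := hLip s s' hs0 x0 x0' x1'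
    rw [← hδ, abs_of_nonneg δ0] at dA
    have dA' := abs_le.1 dA
    obtain ⟨σ, hσ, eσ⟩ := exists_slope hL0 hl s s'
    obtain ⟨r, hr, er⟩ := exists_slope hL0 hl (s - α s) (s' - α s')
    obtain ⟨q, hq, eq⟩ := exists_slope hL0 hu (s - b s) (s' - b s')
    rw [hGα s' x0' x1', hGα s hs0 x0] at eq
    have eB : b s' - b s = σ * δ - r * (δ - (α s' - α s)) := by
      rw [hb s, hb s', hδ]
      have : l s' - l (s' - α s') - (l s - l (s - α s)) =
        (l s' - l s) - (l (s' - α s') - l (s - α s)) := by ring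
      rw [this, eσ, er]
      ring
    have eA : α s' - α s = q * (δ - (b s' - b s)) - σ * δ := by
      have e1 : l s' + α s' - (l s + α s) = (l s' - l s) + (α s' - α s) := by ring
      rw [e1, eσ] at eq
      rw [hδ]
      linarith
    have hTLmono : 0 ≤ δ - (b s' - b s) - (α s' - α s) := by
      have h1 : (1 + q * r) * (δ - (b s' - b s) - (α s' - α s)) =
          ((1 - q) * (1 + r) + σ * (q + r)) * δ := by
        obtain ⟨A, hA⟩ : ∃ A, A = α s' - α s := ⟨_, rfl⟩
        obtain ⟨B, hB⟩ : ∃ B, B = b s' - b s := ⟨_, rfl⟩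
        rw [← hA, ← hB] at eB eA ⊢
        linear_combination (q - 1) * eB - (1 + r) * eA
      have h2 := mul_nonneg (bracket hL0 W.L3 hq hr hσ) δ0
      rw [← h1] at h2
      have h3 : 0 < 1 + q * r := by
        have h4 : |q * r| ≤ L * L := by
          rw [abs_mul]; exact mul_le_mul hq hr (abs_nonneg _) hL0
        have h5 := (abs_le.1 h4).1
        nlinarith
      exact nonneg_of_mul_nonneg_right h2 h3
    have dB : |b s' - b s| ≤ 3 * δ := by
      have h1 : |r * (δ - (α s' - α s))| ≤ 3 / 5 * (4 * δ) := by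
        rw [abs_mul]
        refine mul_le_mul (hr.trans hL1) ?_ (abs_nonneg _) (by norm_num)
        rw [abs_le]
        constructor <;> linarith [dA'.1, dA'.2]
      have h2 : |σ * δ| ≤ 3 / 5 * δ := by
        rw [abs_mul, abs_of_nonneg δ0]
        exact mul_le_mul_of_nonneg_right (hσ.trans hL1) δ0
      rw [eB]
      exact (abs_sub _ _).trans (by linarith)
    have dB' := abs_le.1 dB
    have dS : |δ - (α s' - α s)| ≤ 4 * δ := by
      rw [abs_le]
      constructor <;> linarith [dA'.1, dA'.2]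
    have dT : |δ - (b s' - b s)| ≤ 4 * δ := by
      rw [abs_le]
      constructor <;> linarith [dB'.1, dB'.2]
    have dQ : |δ - (b s' - b s) - (α s' - α s)| ≤ 7 * δ := by
      rw [abs_le]
      constructor <;> linarith [dB'.1, dB'.2, dA'.1, dA'.2]
    have q1 := abs_le.1 (qL' (s - α s) (s' - α s'))
    have q2 := abs_le.1 (qL' s s')
    have q3 := abs_le.1 (qU' (s - b s) (s' - b s'))
    have q4 := abs_le.1 (qU' (s - b s - α s) (s' - b s' - α s'))
    rw [show s' - α s' - (s - α s) = δ - (α s' - α s) by rw [hδ]; ring] at q1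
    rw [← hδ] at q2
    rw [show s' - b s' - (s - b s) = δ - (b s' - b s) by rw [hδ]; ring] at q3
    rw [show s' - b s' - α s' - (s - b s - α s) = δ - (b s' - b s) - (α s' - α s) by
      rw [hδ]; ring] at q4
    have r1 := sq_le_of_abs dS
    have r3 := sq_le_of_abs dT
    have r4 := sq_le_of_abs dQ
    have r5 := sq_le_of_abs dA
    have r6 := sq_le_of_abs dB
    have ki := key_identity (l (s - α s)) (α s) (b s) (α s') (b s') δ (H s)
      (u (s - b s)) (u (s - b s - α s)) (by rw [hGα s hs0 x0, hlb]; ring) (by rw [hH]; ring)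
    have el : l s = l (s - α s) + b s := by rw [hlb]; ring
    rw [el] at q2
    have hHp := mul_nonneg (hpos s hs0 (by linarith)) hTLmono
    have hsqA : 0 ≤ (α s' - α s) ^ 2 := sq_nonneg _
    have hsqδ : 0 ≤ δ ^ 2 := sq_nonneg _
    rw [hΦ, hΦ, ← hδ]
    have e9 : -H s * (δ - (b s' - b s) - (α s' - α s)) =
      -(H s * (δ - (b s' - b s) - (α s' - α s))) := by ring
    rw [e9] at ki
    linarith [q1.1, q1.2, q2.1, q2.2, q3.1, q3.2, q4.1, q4.2]
  have αt := hαpos t ht hX'
  have hHt := (hgood t ht le_rfl).2.2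
  -- both halves
  have v1 := abs_le.1 (qL t (t - α t / 2))
  have v2 := abs_le.1 (qL (t - α t) (t - α t / 2))
  have v3 := abs_le.1 (qU (t - b t) (t - b t - α t / 2))
  have v4 := abs_le.1 (qU (t - b t - α t) (t - b t - α t / 2))
  rw [show t - α t / 2 - t = -(α t / 2) by ring] at v1
  rw [show t - α t / 2 - (t - α t) = α t / 2 by ring] at v2
  rw [show t - b t - α t / 2 - (t - b t) = -(α t / 2) by ring, hGα t ht.le hX'] at v3
  rw [show t - b t - α t / 2 - (t - b t - α t) = α t / 2 by ring] at v4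
  have hlow : 0 < Φ t := by
    rw [hΦ]
    rw [hH] at hHt
    have h1 : 0 < (α t) ^ 2 := by positivity
    have h2 : 0 ≤ (b t) ^ 2 := sq_nonneg _
    have h3 : L * (α t) ^ 2 ≤ 3 / 5 * (α t) ^ 2 := mul_le_mul_of_nonneg_right hL1 h1.le
    have h4 : 0 < (u (t - b t - α t) - (l (t - α t) + α t)) * α t := mul_pos hHt αt
    have e5 : L * (-(α t / 2)) ^ 2 / 2 = L * (α t) ^ 2 / 8 := by ring
    have e6 : L * (α t / 2) ^ 2 / 2 = L * (α t) ^ 2 / 8 := by ring
    rw [e5] at v1 v3
    rw [e6] at v2 v4
    nlinarith [v1.1, v1.2, v2.1, v2.2, v3.1, v3.2, v4.1, v4.2]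
  rw [hΦ0] at hΦle
  linarith

end Q169.Cusp
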